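import Pool.Agent.H94.MW.Defs

set_option autoImplicit false

/-!
# [H94 MW HLV] Halving of a point

`x - e i = s i ^ 2`.  `y² = (s 0 s 1 s 2)²`, so `y = s 0 s 1 s 2` or `y = - s 0 s 1 s 2`; replace `s 0` by `- s 0` if needed: w.l.o.g. `y = s 0 s 1 s 2`.
`a = s 0`, `b = s 1`, `c = s 2`, `x' = x + a b + a c + b c`, `y' = (a + b) (a + c) (b + c)`: `x' - e 0 = (a + b) (a + c)`, `x' - e 1 = (b + a) (b + c)`, `x' - e 2 = (c + a) (c + b)`, so `y'² = ∏ (x' - e i)`; `y' ≠ 0`: `a² - b² = e 1 - e 0 ≠ 0` etc.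
`2 (x', y') = (x, y)`: the slope `λ = (3 x'² + 2 a₂ x' + a₄) / (2 y') = a + b + c` (the numerator is `∑_{i<j} (x' - e i) (x' - e j) = (a + b) (a + c) (b + c) * 2 (a + b + c)`), `x(2P) = λ² - a₂ - 2 x' = (a + b + c)² + e 0 + e 1 + e 2 - 2 x' = x`
(`e 0 + e 1 + e 2 = 3 x - a² - b² - c²`), and `y(2P) = - (λ (x - x') + y')`: `λ (x - x') + y' = - (a + b + c) (a b + a c + b c) + (a + b) (a + c) (b + c) = - a b c`, so `y(2P) = a b c`.
(`add_self_of_Y_ne`, `slope_of_Y_ne`, `addX`, `addY`, `negAddY`, `negY`.)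
-/

namespace Pool.Agent.H94.MW

open WeierstrassCurve

variable {K : Type} [Field K] [DecidableEq K]

theorem hlv_aux (h2 : (2 : K) ≠ 0) {e : Fin 3 → K} (he : Function.Injective e) {x y : K}
    (h : (crv e).toAffine.Nonsingular x y) (a b c : K) (h0 : x - e 0 = a ^ 2)
    (h1 : x - e 1 = b ^ 2) (h3 : x - e 2 = c ^ 2) (hy : y = a * b * c) :
    ∃ P : (crv e).toAffine.Point, P + P = .some x y h := by
  have e01 : e 0 - e 1 ≠ 0 := sub_ne_zero.2 (he.ne (by decide))
  have e02 : e 0 - e 2 ≠ 0 := sub_ne_zero.2 (he.ne (by decide))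
  have e12 : e 1 - e 2 ≠ 0 := sub_ne_zero.2 (he.ne (by decide))
  have hab : a + b ≠ 0 := fun hh => e01 (by linear_combination h1 - h0 - (a - b) * hh)
  have hac : a + c ≠ 0 := fun hh => e02 (by linear_combination h3 - h0 - (a - c) * hh)
  have hbc : b + c ≠ 0 := fun hh => e12 (by linear_combination h3 - h1 - (b - c) * hh)
  set x' : K := x + a * b + a * c + b * c with hx'
  set y' : K := (a + b) * (a + c) * (b + c) with hy'
  have hy0 : y' ≠ 0 := mul_ne_zero (mul_ne_zero hab hac) hbc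
  have E0 : e 0 = x - a ^ 2 := by linear_combination -h0
  have E1 : e 1 = x - b ^ 2 := by linear_combination -h1
  have E2 : e 2 = x - c ^ 2 := by linear_combination -h3
  have hns : (crv e).toAffine.Nonsingular x' y' := by
    rw [nonsing_iff h2 he, Fin.prod_univ_three, E0, E1, E2, hx', hy']
    ring
  have hneg : (crv e).toAffine.negY x' y' = -y' := by
    show -y' - 0 * x' - 0 = -y'
    ring
  have hyne : y' ≠ (crv e).toAffine.negY x' y' := by
    rw [hneg]
    intro hh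
    have h4 : 2 * y' = 0 := by linear_combination hh
    exact (mul_ne_zero h2 hy0) h4
  have hsl : (crv e).toAffine.slope x' x' y' y' = a + b + c := by
    rw [Affine.slope_of_Y_ne rfl hyne, hneg]
    have h4 : y' - -y' ≠ 0 := by
      rw [sub_neg_eq_add, ← two_mul]
      exact mul_ne_zero h2 hy0
    rw [div_eq_iff h4]
    show 3 * x' ^ 2 + 2 * -(e 0 + e 1 + e 2) * x' +
      (e 0 * e 1 + e 0 * e 2 + e 1 * e 2) - 0 * y' = (a + b + c) * (y' - -y')
    rw [E0, E1, E2, hx', hy']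
    ring
  refine ⟨.some x' y' hns, ?_⟩
  rw [Affine.Point.add_self_of_Y_ne hyne, Affine.Point.some.injEq]
  constructor
  · rw [hsl]
    show (a + b + c) ^ 2 + 0 * (a + b + c) - -(e 0 + e 1 + e 2) - x' - x' = x
    rw [E0, E1, E2, hx']
    ring
  · rw [hsl]
    show -((a + b + c) * (((a + b + c) ^ 2 + 0 * (a + b + c) - -(e 0 + e 1 + e 2) - x' - x') -
      x') + y') - 0 * ((a + b + c) ^ 2 + 0 * (a + b + c) - -(e 0 + e 1 + e 2) - x' - x') - 0 = y
    rw [hy, E0, E1, E2, hx', hy']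
    ring

theorem hlv (h2 : (2 : K) ≠ 0) {e : Fin 3 → K} (he : Function.Injective e) {x y : K}
    (h : (crv e).toAffine.Nonsingular x y) (s : Fin 3 → K) (hs : ∀ i, x - e i = s i ^ 2) :
    ∃ P : (crv e).toAffine.Point, P + P = .some x y h := by
  have h1 := (nonsing_iff h2 he x y).1 h
  rw [Fin.prod_univ_three, hs, hs, hs] at h1
  have h3 : (y - s 0 * s 1 * s 2) * (y + s 0 * s 1 * s 2) = 0 := by linear_combination h1
  rcases mul_eq_zero.1 h3 with h4 | h4
  · exact hlv_aux h2 he h (s 0) (s 1) (s 2) (hs 0) (hs 1) (hs 2) (by linear_combination h4)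
  · exact hlv_aux h2 he h (-s 0) (s 1) (s 2) (by rw [neg_sq]; exact hs 0) (hs 1) (hs 2)
      (by linear_combination h4)

end Pool.Agent.H94.MW
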