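import Pool.Agent.H94.MW.Ab1

set_option autoImplicit false

/-!
# [H94 MW AB2] `F(t)` as a field with heights, Northcott property

* `avs`: the archimedean part is the multiset `{abi F}` (no condition is required there), the nonarchimedean part is `Set.range abv`.  `isNonarchimedean`: `isNonarchimedean_adicAbv`.  For `x ≠ 0` write `x = f / g` (`RatFunc.num_div_denom`): `abv v x = abv v f / abv v g`, so the multiplicative support is finite (`abv_poly_fin`), transport to the range by `abv_inj`
  (`Equiv.ofInjective`, `finprod_comp_equiv` / `finprod_mem_range`), and `∏ᶠ = q ^ (- deg f) / q ^ (- deg g)` (`abv_poly`, `finprod_div_distrib`), `abi x = q ^ (deg f - deg g)` (`RatFunc.intDegree`).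
* `ht`: `mulHeight₁ x = max (abi x) 1 * ∏ᶠ v, max (abv v x) 1` (`Height.mulHeight₁_eq`).  For `x = f / g ≠ 0`, `f`, `g` coprime (`RatFunc.isCoprime_num_denom`): `max (abv v x) 1 ≥ (abv v g)⁻¹` for all `v` (if `g ∈ v` then `f ∉ v`, `abv v f = 1`, `abv v x = (abv v g)⁻¹`; if not `abv v g = 1`),
  so `∏ᶠ ≥ ∏ᶠ (abv v g)⁻¹ = q ^ deg g` (`finprod_le_finprod'` with finite supports, or on a common finite set of `v`), and `mulHeight₁ x ≥ max (q ^ (deg f - deg g)) 1 * q ^ deg g = q ^ max (deg f) (deg g)`.  So `mulHeight₁ x ≤ B` bounds the degrees of `num x`, `denom x`, and there are finitely many pairs (`F` is finite);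
  `x` is determined by `num x`, `denom x`.  `Northcott`: `finite_le`.
-/

namespace Pool.Agent.H94.MW

open Polynomial IsDedekindDomain

variable (F : Type) [Field F] [Finite F]

private theorem ab2_q_gt : (1 : ℝ) < (Nat.card F : ℝ) := by
  have h1 : 1 < Nat.card F := Finite.one_lt_card
  exact_mod_cast h1

variable {F}

private theorem ab2_num_ne {x : RatFunc F} (hx : x ≠ 0) : x.num ≠ 0 := by
  rwa [Ne, RatFunc.num_eq_zero_iff]

private theorem ab2_div (v : AbsoluteValue (RatFunc F) ℝ) (x : RatFunc F) :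
    v x = v (algebraMap F[X] (RatFunc F) x.num) / v (algebraMap F[X] (RatFunc F) x.denom) := by
  conv_lhs => rw [← RatFunc.num_div_denom x]
  rw [map_div₀]

private theorem ab2_fin {x : RatFunc F} (hx : x ≠ 0) :
    (Function.mulSupport fun w : HeightOneSpectrum F[X] => abv w x).Finite := by
  refine ((abv_poly_fin (ab2_num_ne hx)).union (abv_poly_fin x.denom_ne_zero)).subset ?_
  intro w hw
  rw [Function.mem_mulSupport] at hw
  by_contra hc
  rw [Set.mem_union, Function.mem_mulSupport, Function.mem_mulSupport, not_or, not_not,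
    not_not] at hc
  apply hw
  rw [ab2_div, hc.1, hc.2, div_one]

private theorem ab2_prod {x : RatFunc F} (hx : x ≠ 0) :
    ∏ᶠ w : HeightOneSpectrum F[X], abv w x =
      ((Nat.card F : ℝ) ^ x.num.natDegree)⁻¹ / ((Nat.card F : ℝ) ^ x.denom.natDegree)⁻¹ := by
  rw [← abv_poly (ab2_num_ne hx), ← abv_poly x.denom_ne_zero,
    ← finprod_div_distrib (abv_poly_fin (ab2_num_ne hx)) (abv_poly_fin x.denom_ne_zero)]
  exact finprod_congr fun w => ab2_div _ _

private theorem ab2_inf {x : RatFunc F} (hx : x ≠ 0) :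
    abi F x = (Nat.card F : ℝ) ^ x.num.natDegree / (Nat.card F : ℝ) ^ x.denom.natDegree := by
  have hq := ab2_q_gt F
  rw [abi_apply hx, RatFunc.intDegree, zpow_sub₀ (by linarith), zpow_natCast, zpow_natCast]

private theorem ab2_transport (φ : AbsoluteValue (RatFunc F) ℝ → ℝ) :
    ∏ᶠ v : Set.range (abv (F := F)), φ v.val = ∏ᶠ w : HeightOneSpectrum F[X], φ (abv w) := by
  rw [← finprod_comp_equiv (Equiv.ofInjective (abv (F := F)) abv_inj)]
  rfl

variable (F)

/-- the absolute values of `F(t)` -/
noncomputable def avs : Height.AdmissibleAbsValues (RatFunc F) where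
  archAbsVal := {abi F}
  nonarchAbsVal := Set.range (abv (F := F))
  isNonarchimedean := by
    rintro v ⟨w, rfl⟩
    exact w.isNonarchimedean_adicAbv (one_lt_bsv w)
  hasFiniteMulSupport := by
    intro x hx
    have h1 := (ab2_fin hx).image (fun w => (⟨abv w, w, rfl⟩ : Set.range (abv (F := F))))
    refine Set.Finite.subset h1 ?_
    rintro ⟨v, w, rfl⟩ hv
    exact ⟨w, hv, rfl⟩
  product_formula := by
    intro x hx
    rw [ab2_transport (fun v => v x), ab2_prod hx]
    show (Multiset.map (fun v : AbsoluteValue (RatFunc F) ℝ => v x) {abi F}).prod * _ = 1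
    rw [Multiset.map_singleton, Multiset.prod_singleton, ab2_inf hx]
    have hq := ab2_q_gt F
    have h1 : (Nat.card F : ℝ) ^ x.num.natDegree ≠ 0 := by positivity
    have h2 : (Nat.card F : ℝ) ^ x.denom.natDegree ≠ 0 := by positivity
    field_simp

variable {F}

private theorem ab2_max_fin (x : RatFunc F) :
    (Function.mulSupport fun w : HeightOneSpectrum F[X] => max (abv w x) 1).Finite := by
  by_cases hx : x = 0
  · have : (Function.mulSupport fun w : HeightOneSpectrum F[X] => max (abv w x) 1) = ∅ := by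
      rw [Function.mulSupport_eq_empty_iff]
      funext w
      rw [hx, map_zero]
      simp
    rw [this]
    exact Set.finite_empty
  · refine (ab2_fin hx).subset ?_
    intro w hw
    rw [Function.mem_mulSupport] at hw ⊢
    intro h
    rw [h, max_self] at hw
    exact hw rfl

private theorem ab2_low {x : RatFunc F} (hx : x ≠ 0) :
    (Nat.card F : ℝ) ^ x.denom.natDegree ≤ ∏ᶠ w : HeightOneSpectrum F[X], max (abv w x) 1 := by
  have h1 : (Nat.card F : ℝ) ^ x.denom.natDegree =
      ∏ᶠ w : HeightOneSpectrum F[X], (abv w (algebraMap F[X] (RatFunc F) x.denom))⁻¹ := by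
    rw [finprod_inv_distrib, abv_poly x.denom_ne_zero, inv_inv]
  rw [h1]
  refine finprod_le_finprod ?_ ?_ (ab2_max_fin x) ?_
  · refine (abv_poly_fin x.denom_ne_zero).subset ?_
    intro w hw
    rw [Function.mem_mulSupport] at hw ⊢
    intro h
    rw [h, inv_one] at hw
    exact hw rfl
  · intro w
    exact inv_nonneg.mpr ((abv w).nonneg _)
  · intro w
    show (abv w (algebraMap F[X] (RatFunc F) x.denom))⁻¹ ≤ max (abv w x) 1
    by_cases hg : x.denom ∈ w.asIdeal
    · have hf : x.num ∉ w.asIdeal := by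
        intro hf
        obtain ⟨a, b, hab⟩ := RatFunc.isCoprime_num_denom x
        apply w.isPrime.ne_top
        rw [Ideal.eq_top_iff_one, ← hab]
        exact w.asIdeal.add_mem (w.asIdeal.mul_mem_left _ hf) (w.asIdeal.mul_mem_left _ hg)
      have h2 : abv w (algebraMap F[X] (RatFunc F) x.num) = 1 :=
        (w.adicAbv_coe_eq_one_iff (one_lt_bsv w) x.num).mpr hf
      rw [ab2_div (abv w) x, h2, one_div]
      exact le_max_left _ _
    · have h2 : abv w (algebraMap F[X] (RatFunc F) x.denom) = 1 :=
        (w.adicAbv_coe_eq_one_iff (one_lt_bsv w) x.denom).mpr hg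
      rw [h2, inv_one]
      exact le_max_right _ _

private theorem ab2_poly_fin (N : ℕ) : {p : F[X] | p.natDegree < N}.Finite := by
  have h1 : (Set.range fun a : Fin N → F => ∑ i : Fin N, C (a i) * X ^ (i : ℕ)).Finite :=
    Set.finite_range _
  refine h1.subset ?_
  intro p hp
  refine ⟨fun i => p.coeff i, ?_⟩
  show ∑ i : Fin N, C (p.coeff i) * X ^ (i : ℕ) = p
  rw [Fin.sum_univ_eq_sum_range (fun i => C (p.coeff i) * X ^ i) N]
  exact (p.as_sum_range_C_mul_X_pow' hp).symm

private theorem ab2_height (x : RatFunc F) (hx : x ≠ 0) :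
    (Nat.card F : ℝ) ^ x.num.natDegree ≤ max (abi F x) 1 *
        ∏ᶠ w : HeightOneSpectrum F[X], max (abv w x) 1 ∧
      (Nat.card F : ℝ) ^ x.denom.natDegree ≤ max (abi F x) 1 *
        ∏ᶠ w : HeightOneSpectrum F[X], max (abv w x) 1 := by
  have hq := ab2_q_gt F
  have h1 := ab2_low hx
  have h2 : (0 : ℝ) < (Nat.card F : ℝ) ^ x.denom.natDegree := by positivity
  constructor
  · calc (Nat.card F : ℝ) ^ x.num.natDegree = abi F x * (Nat.card F : ℝ) ^ x.denom.natDegree := by
          rw [ab2_inf hx, div_mul_cancel₀ _ h2.ne']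
      _ ≤ max (abi F x) 1 * ∏ᶠ w : HeightOneSpectrum F[X], max (abv w x) 1 :=
          mul_le_mul (le_max_left _ _) h1 h2.le (le_trans zero_le_one (le_max_right _ _))
  · calc (Nat.card F : ℝ) ^ x.denom.natDegree = 1 * (Nat.card F : ℝ) ^ x.denom.natDegree := by
          rw [one_mul]
      _ ≤ max (abi F x) 1 * ∏ᶠ w : HeightOneSpectrum F[X], max (abv w x) 1 :=
          mul_le_mul (le_max_right _ _) h1 h2.le (le_trans zero_le_one (le_max_right _ _))

variable (F)

theorem ht : ∃ _ : Height.AdmissibleAbsValues (RatFunc F),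
    Northcott (Height.mulHeight₁ (K := RatFunc F)) := by
  refine ⟨avs F, ?_⟩
  letI := avs F
  have hq := ab2_q_gt F
  refine ⟨fun B => ?_⟩
  obtain ⟨N, hN⟩ := pow_unbounded_of_one_lt B hq
  have hfin : ({p : F[X] | p.natDegree < N} ×ˢ {p : F[X] | p.natDegree < N}).Finite :=
    (ab2_poly_fin N).prod (ab2_poly_fin N)
  have hfin2 := (hfin.image (fun z : F[X] × F[X] =>
    algebraMap F[X] (RatFunc F) z.1 / algebraMap F[X] (RatFunc F) z.2)).union
    (Set.finite_singleton (0 : RatFunc F))
  refine hfin2.subset ?_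
  intro x hx
  by_cases hx0 : x = 0
  · right
    exact hx0
  · left
    have hx1 : Height.mulHeight₁ x ≤ B := hx
    have hval : Height.mulHeight₁ x = max (abi F x) 1 *
        ∏ᶠ w : HeightOneSpectrum F[X], max (abv w x) 1 := by
      rw [Height.mulHeight₁_eq]
      congr 1
      · show (Multiset.map (fun v : AbsoluteValue (RatFunc F) ℝ => max (v x) 1) {abi F}).prod = _
        rw [Multiset.map_singleton, Multiset.prod_singleton]
      · exact ab2_transport (fun v => max (v x) 1)
    rw [hval] at hx1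
    obtain ⟨g1, g2⟩ := ab2_height x hx0
    refine ⟨(x.num, x.denom), ⟨?_, ?_⟩, RatFunc.num_div_denom x⟩
    · show x.num.natDegree < N
      exact (pow_lt_pow_iff_right₀ hq).mp (lt_of_le_of_lt (g1.trans hx1) hN)
    · show x.denom.natDegree < N
      exact (pow_lt_pow_iff_right₀ hq).mp (lt_of_le_of_lt (g2.trans hx1) hN)

end Pool.Agent.H94.MW
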