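import Pool.Agent.H94.MW.Hlv

set_option autoImplicit false

/-!
# [H94 MW ADX] The difference of two points with the same descent classes

* `adx`: `x₁ ≠ x₂`; `P - Q = P + (-Q)`, `-Q = (x₂, -y₂)`; `add_of_X_ne`: `P - Q = (x, y)` with `x = λ² - a₂ - x₁ - x₂`, `λ = (y₁ + y₂) / (x₁ - x₂)`, `ν = y₁ - λ x₁`.  The cubic `∏ (X - e i) - (λ X + ν)²` has the roots `x₁`, `x₂`, `x`: `(e i - x₁) (e i - x₂) (e i - x) = - (λ e i + ν)²`, so `(x₁ - e i) (x₂ - e i) (x - e i) = (λ e i + ν)²`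
  (identity: `field_simp`, `linear_combination` with the two equations of the curve).
* `dfh`: `P = (x₁, y₁)`, `Q = (x₂, y₂)`, `y₁, y₂ ≠ 0` and `x₁ - e i = (x₂ - e i) * t i ^ 2` with `t i ≠ 0`.  If `x₁ = x₂` then `P = ± Q` (`X_eq_iff` or `xRep`), `P - Q = 0` or `2 P`.  If not: `adx`: `(x - e i) = m² / ((x₁ - e i) (x₂ - e i)) = (m / ((x₂ - e i) t i))²` (`x₂ - e i ≠ 0` as `y₂ ≠ 0`), so `hlv` applies to `P - Q = (x, y)`.
-/

namespace Pool.Agent.H94.MW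

open WeierstrassCurve

variable {K : Type} [Field K] [DecidableEq K]

omit [DecidableEq K] in
private theorem adx_ring {x₁ x₂ y₁ y₂ l a b c t : K} (hD : x₁ - x₂ ≠ 0)
    (h1 : y₁ ^ 2 = (x₁ - a) * (x₁ - b) * (x₁ - c)) (h2 : y₂ ^ 2 = (x₂ - a) * (x₂ - b) * (x₂ - c))
    (hl : l * (x₁ - x₂) = y₁ + y₂) (ht : (t - a) * (t - b) * (t - c) = 0) :
    (x₁ - t) * (x₂ - t) * ((l ^ 2 + (a + b + c) - x₁ - x₂) - t) = (l * (t - x₁) + y₁) ^ 2 := by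
  apply mul_left_cancel₀ hD
  linear_combination (-(t - x₂)) * h1 + (t - x₁) * h2 -
    (t - x₁) * (y₁ - l * (x₁ - x₂) - y₂) * hl - (x₁ - x₂) * ht

omit [DecidableEq K] in
private theorem root3 (e : Fin 3 → K) (i : Fin 3) :
    (e i - e 0) * (e i - e 1) * (e i - e 2) = 0 := by
  fin_cases i
  · show (e 0 - e 0) * (e 0 - e 1) * (e 0 - e 2) = 0
    ring
  · show (e 1 - e 0) * (e 1 - e 1) * (e 1 - e 2) = 0
    ring
  · show (e 2 - e 0) * (e 2 - e 1) * (e 2 - e 2) = 0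
    ring

theorem adx (h2 : (2 : K) ≠ 0) {e : Fin 3 → K} (he : Function.Injective e) {x₁ y₁ x₂ y₂ : K}
    (h₁ : (crv e).toAffine.Nonsingular x₁ y₁) (h₂ : (crv e).toAffine.Nonsingular x₂ y₂)
    (hx : x₁ ≠ x₂) :
    ∃ (x y : K) (h : (crv e).toAffine.Nonsingular x y),
      (Affine.Point.some x₁ y₁ h₁ : (crv e).toAffine.Point) - .some x₂ y₂ h₂ = .some x y h ∧
        ∀ i, ∃ m : K, (x₁ - e i) * (x₂ - e i) * (x - e i) = m ^ 2 := by
  have hD : x₁ - x₂ ≠ 0 := sub_ne_zero.2 hx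
  have c1 := (nonsing_iff h2 he x₁ y₁).1 h₁
  have c2 := (nonsing_iff h2 he x₂ y₂).1 h₂
  rw [Fin.prod_univ_three] at c1 c2
  have ha1 : (crv e).toAffine.a₁ = 0 := rfl
  have ha2 : (crv e).toAffine.a₂ = -(e 0 + e 1 + e 2) := rfl
  have ha3 : (crv e).toAffine.a₃ = 0 := rfl
  have hneg : (crv e).toAffine.negY x₂ y₂ = -y₂ := by
    rw [WeierstrassCurve.Affine.negY, ha1, ha3]; ring
  obtain ⟨l, hldef⟩ : ∃ l, l = (crv e).toAffine.slope x₁ x₂ y₁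
    ((crv e).toAffine.negY x₂ y₂) := ⟨_, rfl⟩
  have hl : l * (x₁ - x₂) = y₁ + y₂ := by
    rw [hldef, WeierstrassCurve.Affine.slope_of_X_ne hx, div_mul_cancel₀ _ hD, hneg]
    ring
  have hX : (crv e).toAffine.addX x₁ x₂ l = l ^ 2 + (e 0 + e 1 + e 2) - x₁ - x₂ := by
    rw [WeierstrassCurve.Affine.addX, ha1, ha2]; ring
  refine ⟨_, _, WeierstrassCurve.Affine.nonsingular_add h₁
    ((WeierstrassCurve.Affine.nonsingular_neg ..).mpr h₂) (fun hxy => hx hxy.left), ?_, ?_⟩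
  · rw [sub_eq_add_neg, Affine.Point.neg_some]
    exact Affine.Point.add_of_X_ne hx
  · intro i
    rw [← hldef, hX]
    exact ⟨_, adx_ring hD c1 c2 hl (root3 e i)⟩

theorem dfh (h2 : (2 : K) ≠ 0) {e : Fin 3 → K} (he : Function.Injective e) {x₁ y₁ x₂ y₂ : K}
    (h₁ : (crv e).toAffine.Nonsingular x₁ y₁) (h₂ : (crv e).toAffine.Nonsingular x₂ y₂)
    (hy₁ : y₁ ≠ 0) (hy₂ : y₂ ≠ 0)
    (ht : ∀ i, ∃ t : K, t ≠ 0 ∧ x₁ - e i = (x₂ - e i) * t ^ 2) :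
    ∃ R : (crv e).toAffine.Point,
      (Affine.Point.some x₁ y₁ h₁ : (crv e).toAffine.Point) - .some x₂ y₂ h₂ = R + R := by
  by_cases hx : x₁ = x₂
  · rcases (Affine.Point.X_eq_iff (h₁ := h₁) (h₂ := h₂)).1 hx with h3 | h3
    · exact ⟨0, by rw [h3, sub_self, add_zero]⟩
    · exact ⟨-.some x₂ y₂ h₂, by rw [h3, sub_eq_add_neg]⟩
  · obtain ⟨x, y, h, hd, hm⟩ := adx h2 he h₁ h₂ hx
    have c2 := (nonsing_iff h2 he x₂ y₂).1 h₂
    have hne : ∀ i, x₂ - e i ≠ 0 := by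
      intro i h0
      apply hy₂
      rw [← pow_eq_zero_iff (two_ne_zero), c2]
      exact Finset.prod_eq_zero (Finset.mem_univ i) h0
    have hs : ∀ i, ∃ s : K, x - e i = s ^ 2 := by
      intro i
      obtain ⟨t, ht0, ht1⟩ := ht i
      obtain ⟨m, hm1⟩ := hm i
      refine ⟨m / ((x₂ - e i) * t), ?_⟩
      have h5 : (x₂ - e i) * t ≠ 0 := mul_ne_zero (hne i) ht0
      rw [div_pow, eq_div_iff (pow_ne_zero 2 h5), ← hm1, ht1]
      ring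
    choose s hs using hs
    obtain ⟨R, hR⟩ := hlv h2 he h s hs
    exact ⟨R, by rw [hd, hR]⟩

end Pool.Agent.H94.MW
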