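import Mathlib

set_option autoImplicit false

/-!
# [H94 MW GRP] Descent in an abelian group: the index of `2 G` and the rank

`H = 2 G` (the range), `T = G[2]` (the kernel).
* `fin_idx`: the cosets of `H` which contain some `g` with `2 • g ≠ 0` inject into `S` (choose such a `g` and take `κ g`; `h2`), the other cosets contain only elements of `T`, each is the coset of an element of `T`, `T` is finite.
* `card_quot`: `G` finitely generated: `G ≃+ (Fin n →₀ ℤ) × T'`, `T'` finite (`AddCommGroup.equiv_free_prod_directSum_zmod`, `T' = ⨁ ZMod (p i ^ e i)` finite), `n = finrank ℤ G` (`finrank` of a product; a finite group has `finrank` `0`, `Module.finrank_eq_zero_of_rank_eq_zero`/torsion).  `G / 2 G = (ℤ / 2)^n × T' / 2 T'`, and `card (T' / 2 T') = card T'[2]`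
  (`card T' = card range * card ker` and `card T' = card (T' / range) * card range`), `G[2] = T'[2]`.
* `rk_bd`: if `finrank ℤ G = 0` nothing to show.  Else `G` is infinite, `H` is infinite (kernel `T` finite), each coset of `H` is infinite, so it is not contained in the finite set `T`: it contains `g` with `2 • g ≠ 0`.  So `G / H` injects into `S`: `2 ^ finrank * 4 = card (G / H) ≤ S.ncard ≤ 2 ^ (2 + r)` (`card_quot`).
-/

namespace Pool.Agent.H94.MW

variable {G : Type} [AddCommGroup G]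

private theorem mem_ran {g : G} : g ∈ (nsmulAddMonoidHom 2 : G →+ G).range ↔ ∃ r : G, 2 • r = g :=
  Iff.rfl

private theorem mem_ke {g : G} : g ∈ (nsmulAddMonoidHom 2 : G →+ G).ker ↔ 2 • g = 0 := Iff.rfl

/-- the classes with an element that is not of order two inject into `S` -/
private theorem cls_inj {C : Type} (κ : G → C) {S : Set C}
    (h1 : ∀ g : G, 2 • g ≠ 0 → κ g ∈ S)
    (h2 : ∀ g g' : G, 2 • g ≠ 0 → 2 • g' ≠ 0 → κ g = κ g' → ∃ r : G, g - g' = 2 • r) :
    ∃ F : G ⧸ (nsmulAddMonoidHom 2 : G →+ G).range → C,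
      (∀ q, (∃ g : G, (g : G ⧸ (nsmulAddMonoidHom 2 : G →+ G).range) = q ∧ 2 • g ≠ 0) →
        F q ∈ S) ∧
      ∀ q q', (∃ g : G, (g : G ⧸ (nsmulAddMonoidHom 2 : G →+ G).range) = q ∧ 2 • g ≠ 0) →
        (∃ g : G, (g : G ⧸ (nsmulAddMonoidHom 2 : G →+ G).range) = q' ∧ 2 • g ≠ 0) →
        F q = F q' → q = q' := by
  classical
  obtain ⟨ch, hch⟩ : ∃ ch : G ⧸ (nsmulAddMonoidHom 2 : G →+ G).range → G,
      ∀ q, (∃ g : G, (g : G ⧸ (nsmulAddMonoidHom 2 : G →+ G).range) = q ∧ 2 • g ≠ 0) →
        (ch q : G ⧸ (nsmulAddMonoidHom 2 : G →+ G).range) = q ∧ 2 • ch q ≠ 0 := by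
    refine ⟨fun q => if h : ∃ g : G, (g : G ⧸ (nsmulAddMonoidHom 2 : G →+ G).range) = q ∧
      2 • g ≠ 0 then h.choose else 0, fun q hq => ?_⟩
    simp only [dif_pos hq]
    exact hq.choose_spec
  refine ⟨fun q => κ (ch q), fun q hq => h1 _ (hch q hq).2, fun q q' hq hq' hF => ?_⟩
  obtain ⟨r, hr⟩ := h2 _ _ (hch q hq).2 (hch q' hq').2 hF
  rw [← (hch q hq).1, ← (hch q' hq').1, eq_comm, QuotientAddGroup.eq]
  refine ⟨r, ?_⟩
  show 2 • r = -ch q' + ch q
  rw [← hr]
  abel

theorem fin_idx {C : Type} (κ : G → C) {S : Set C} (hS : S.Finite)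
    (h1 : ∀ g : G, 2 • g ≠ 0 → κ g ∈ S)
    (h2 : ∀ g g' : G, 2 • g ≠ 0 → 2 • g' ≠ 0 → κ g = κ g' → ∃ r : G, g - g' = 2 • r)
    (h4 : Nat.card (nsmulAddMonoidHom 2 : G →+ G).ker = 4) :
    (nsmulAddMonoidHom 2 : G →+ G).range.FiniteIndex := by
  obtain ⟨F, hF1, hF2⟩ := cls_inj κ h1 h2
  have hT : Finite (nsmulAddMonoidHom 2 : G →+ G).ker :=
    Nat.finite_of_card_ne_zero (by rw [h4]; norm_num)
  have hfin : (Set.univ : Set (G ⧸ (nsmulAddMonoidHom 2 : G →+ G).range)).Finite := by
    have hA : {q : G ⧸ (nsmulAddMonoidHom 2 : G →+ G).range | ∃ g : G,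
        (g : G ⧸ (nsmulAddMonoidHom 2 : G →+ G).range) = q ∧ 2 • g ≠ 0}.Finite :=
      Set.Finite.of_finite_image (hS.subset (by
        rintro _ ⟨q, hq, rfl⟩
        exact hF1 q hq)) (fun q hq q' hq' h => hF2 q q' hq hq' h)
    have hB : ((fun g : G => (g : G ⧸ (nsmulAddMonoidHom 2 : G →+ G).range)) ''
        ((nsmulAddMonoidHom 2 : G →+ G).ker : Set G)).Finite :=
      Set.Finite.image _ (Set.toFinite _)
    refine (hA.union hB).subset ?_
    intro q _
    obtain ⟨g, rfl⟩ := QuotientAddGroup.mk_surjective q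
    by_cases hg : 2 • g = 0
    · exact Or.inr ⟨g, hg, rfl⟩
    · exact Or.inl ⟨g, rfl, hg⟩
  have : Finite (G ⧸ (nsmulAddMonoidHom 2 : G →+ G).range) := Set.finite_univ_iff.1 hfin
  exact AddSubgroup.finiteIndex_of_finite_quotient

/-- finite groups -/
private theorem card_fin (T : Type) [AddCommGroup T] [Finite T] :
    Nat.card (T ⧸ (nsmulAddMonoidHom 2 : T →+ T).range) =
      Nat.card (nsmulAddMonoidHom 2 : T →+ T).ker := by
  have h1 := AddSubgroup.index_mul_card (nsmulAddMonoidHom 2 : T →+ T).range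
  have h2 := AddSubgroup.index_mul_card (nsmulAddMonoidHom 2 : T →+ T).ker
  have h3 : (nsmulAddMonoidHom 2 : T →+ T).ker.index =
      Nat.card (nsmulAddMonoidHom 2 : T →+ T).range := AddSubgroup.index_ker _
  rw [← h2, h3, AddSubgroup.index_eq_card, mul_comm] at h1
  exact Nat.eq_of_mul_eq_mul_left Nat.card_pos h1

theorem card_quot (hG : AddGroup.FG G) :
    Nat.card (G ⧸ (nsmulAddMonoidHom 2 : G →+ G).range) =
      2 ^ Module.finrank ℤ G * Nat.card (nsmulAddMonoidHom 2 : G →+ G).ker := by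
  classical
  obtain ⟨n, ι, _, p, hp, ex, ⟨e₀⟩⟩ := AddCommGroup.equiv_free_prod_directSum_zmod G
  obtain ⟨T, hTg, hTf, ⟨e⟩⟩ : ∃ (T : Type) (_ : AddCommGroup T) (_ : Finite T),
      Nonempty (G ≃+ (Fin n →₀ ℤ) × T) := by
    refine ⟨∀ i, ZMod (p i ^ ex i), inferInstance, ?_, ⟨e₀.trans
      (AddEquiv.prodCongr (AddEquiv.refl _) (DirectSum.addEquivProd _))⟩⟩
    have : ∀ i, NeZero (p i ^ ex i) := fun i => ⟨pow_ne_zero _ (hp i).ne_zero⟩
    infer_instance
  -- the rank
  have hrank : Module.finrank ℤ G = n := by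
    obtain ⟨f, hf⟩ : ∃ f : G →ₗ[ℤ] (Fin n →₀ ℤ), ∀ g, f g = (e g).1 :=
      ⟨(LinearMap.fst ℤ (Fin n →₀ ℤ) T).comp (e.toIntLinearEquiv : G →ₗ[ℤ] _), fun _ => rfl⟩
    have hsurj : Function.Surjective f := by
      intro m
      refine ⟨e.symm (m, 0), ?_⟩
      rw [hf, AddEquiv.apply_symm_apply]
    have hker : LinearMap.ker f ≤ Submodule.torsion ℤ G := by
      intro g hg
      rw [LinearMap.mem_ker, hf] at hg
      have hc : (Nat.card T : ℤ) ≠ 0 := by exact_mod_cast Nat.card_pos.ne'
      refine ⟨⟨(Nat.card T : ℤ), mem_nonZeroDivisors_of_ne_zero hc⟩, ?_⟩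
      show (Nat.card T : ℤ) • g = 0
      rw [natCast_zsmul]
      apply e.injective
      rw [map_nsmul, map_zero]
      ext1
      · show Nat.card T • (e g).1 = 0
        rw [hg, nsmul_zero]
      · show Nat.card T • (e g).2 = 0
        exact card_nsmul_eq_zero'
    rw [← finrank_quotient_eq_of_le_torsion hker,
      (LinearMap.quotKerEquivOfSurjective f hsurj).finrank_eq, Module.finrank_finsupp_self,
      Fintype.card_fin]
  -- the kernel
  have hkerc : Nat.card (nsmulAddMonoidHom 2 : G →+ G).ker =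
      Nat.card (nsmulAddMonoidHom 2 : T →+ T).ker := by
    apply Nat.card_congr
    refine ⟨fun g => ⟨(e g.1).2, ?_⟩, fun t => ⟨e.symm (0, t.1), ?_⟩, ?_, ?_⟩
    · rw [mem_ke, ← Prod.smul_snd, ← map_nsmul, mem_ke.1 g.2, map_zero]
      rfl
    · rw [mem_ke, ← map_nsmul, Prod.smul_mk, mem_ke.1 t.2, nsmul_zero]
      exact map_zero _
    · rintro ⟨g, hg⟩
      apply Subtype.ext
      show e.symm (0, (e g).2) = g
      rw [AddEquiv.symm_apply_eq]
      have h1 : 2 • (e g).1 = 0 := by
        rw [← Prod.smul_fst, ← map_nsmul, mem_ke.1 hg, map_zero]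
        rfl
      have h2 : (e g).1 = 0 := by
        ext j
        have h3 := DFunLike.congr_fun h1 j
        rw [Finsupp.smul_apply, Finsupp.zero_apply, smul_eq_zero] at h3
        rw [Finsupp.zero_apply]
        exact h3.resolve_left (by norm_num)
      rw [← h2]
    · rintro ⟨t, ht⟩
      apply Subtype.ext
      show (e (e.symm (0, t))).2 = t
      rw [AddEquiv.apply_symm_apply]
  -- the quotient
  obtain ⟨φ, hφ⟩ : ∃ φ : G →+ (Fin n → ZMod 2) × (T ⧸ (nsmulAddMonoidHom 2 : T →+ T).range),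
      ∀ g, φ g = (fun i => (((e g).1 i : ℤ) : ZMod 2), ((e g).2 : T ⧸ _)) := by
    refine ⟨{ toFun := fun g => (fun i => (((e g).1 i : ℤ) : ZMod 2), ((e g).2 : T ⧸ _)),
              map_zero' := ?_, map_add' := fun g g' => ?_ }, fun _ => rfl⟩
    · rw [map_zero]
      ext1
      · funext i
        simp
      · rfl
    · rw [map_add]
      ext1
      · funext i
        simp
      · rfl
  have hsurj : Function.Surjective φ := by
    rintro ⟨u, q⟩
    obtain ⟨t, rfl⟩ := QuotientAddGroup.mk_surjective q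
    choose m hm using fun i => ZMod.intCast_surjective (n := 2) (u i)
    refine ⟨e.symm (Finsupp.equivFunOnFinite.symm m, t), ?_⟩
    rw [hφ, AddEquiv.apply_symm_apply]
    ext1
    · funext i
      exact hm i
    · rfl
  have hker : φ.ker = (nsmulAddMonoidHom 2 : G →+ G).range := by
    ext g
    rw [AddMonoidHom.mem_ker, hφ, mem_ran]
    constructor
    · intro h
      have h1 := congrArg Prod.fst h
      have h2 := congrArg Prod.snd h
      have h3 : (e g).2 ∈ (nsmulAddMonoidHom 2 : T →+ T).range :=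
        (QuotientAddGroup.eq_zero_iff _).1 h2
      obtain ⟨t, ht⟩ := h3
      have h4 : ∀ i, ∃ k : ℤ, (e g).1 i = 2 * k := by
        intro i
        have h5 := congrFun h1 i
        exact (ZMod.intCast_zmod_eq_zero_iff_dvd _ 2).1 h5
      choose k hk using h4
      refine ⟨e.symm (Finsupp.equivFunOnFinite.symm k, t), ?_⟩
      rw [← map_nsmul, AddEquiv.symm_apply_eq]
      ext1
      · ext i
        show 2 • k i = (e g).1 i
        rw [hk i, two_nsmul]
        ring
      · exact ht
    · rintro ⟨r, rfl⟩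
      rw [map_nsmul]
      ext1
      · funext i
        show ((((2 • e r).1 i : ℤ)) : ZMod 2) = 0
        rw [ZMod.intCast_zmod_eq_zero_iff_dvd]
        refine ⟨(e r).1 i, ?_⟩
        show 2 • (e r).1 i = _
        rw [two_nsmul]
        push_cast
        ring
      · exact (QuotientAddGroup.eq_zero_iff _).2 ⟨(e r).2, rfl⟩
  have h1 : φ.ker.index = Nat.card φ.range := AddSubgroup.index_ker φ
  rw [hker, AddMonoidHom.range_eq_top.2 hsurj, AddSubgroup.index_eq_card] at h1
  rw [h1, hrank, hkerc, ← card_fin T, Nat.card_congr AddSubgroup.topEquiv.toEquiv,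
    Nat.card_prod, Nat.card_fun, Nat.card_zmod, Nat.card_fin]

theorem rk_bd (hG : AddGroup.FG G) {C : Type} (κ : G → C) {S : Set C} (hS : S.Finite)
    (h1 : ∀ g : G, 2 • g ≠ 0 → κ g ∈ S)
    (h2 : ∀ g g' : G, 2 • g ≠ 0 → 2 • g' ≠ 0 → κ g = κ g' → ∃ r : G, g - g' = 2 • r)
    (h4 : Nat.card (nsmulAddMonoidHom 2 : G →+ G).ker = 4) {r : ℕ}
    (hr : S.ncard ≤ 2 ^ (2 + r)) : Module.finrank ℤ G ≤ r := by
  obtain ⟨F, hF1, hF2⟩ := cls_inj κ h1 h2
  have hcq := card_quot hG
  rw [h4] at hcq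
  have hT : Finite (nsmulAddMonoidHom 2 : G →+ G).ker :=
    Nat.finite_of_card_ne_zero (by rw [h4]; norm_num)
  rcases finite_or_infinite G with hfin | hinf
  · have h5 := card_fin G
    rw [hcq, h4] at h5
    have h6 : 2 ^ Module.finrank ℤ G = 1 := by omega
    have h7 : Module.finrank ℤ G = 0 := by
      by_contra h8
      have h9 : 2 ^ 1 ≤ 2 ^ Module.finrank ℤ G :=
        Nat.pow_le_pow_right (by norm_num) (by omega)
      omega
    omega
  · -- the range is infinite
    have hH : Infinite (nsmulAddMonoidHom 2 : G →+ G).range := by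
      have h5 := AddSubgroup.index_mul_card (nsmulAddMonoidHom 2 : G →+ G).ker
      have h6 : (nsmulAddMonoidHom 2 : G →+ G).ker.index =
        Nat.card (nsmulAddMonoidHom 2 : G →+ G).range := AddSubgroup.index_ker _
      rw [h6, h4, Nat.card_eq_zero_of_infinite (α := G)] at h5
      have h7 : Nat.card (nsmulAddMonoidHom 2 : G →+ G).range = 0 := by omega
      rw [Nat.card_eq_zero] at h7
      rcases h7 with h7 | h7
      · exact absurd h7 (not_isEmpty_of_nonempty _)
      · exact h7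
    have hall : ∀ q : G ⧸ (nsmulAddMonoidHom 2 : G →+ G).range, ∃ g : G,
        (g : G ⧸ (nsmulAddMonoidHom 2 : G →+ G).range) = q ∧ 2 • g ≠ 0 := by
      intro q
      obtain ⟨g, rfl⟩ := QuotientAddGroup.mk_surjective q
      by_contra hcon
      push Not at hcon
      have h5 : ∀ h ∈ (nsmulAddMonoidHom 2 : G →+ G).range, 2 • (g + h) = 0 := by
        intro h hh
        apply hcon
        rw [eq_comm, QuotientAddGroup.eq]
        have h6 : -g + (g + h) = h := by abel
        rw [h6]
        exact hh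
      have h6 := h5 0 (AddSubgroup.zero_mem _)
      rw [add_zero] at h6
      have h7 : (nsmulAddMonoidHom 2 : G →+ G).range ≤ (nsmulAddMonoidHom 2 : G →+ G).ker := by
        intro h hh
        have h8 := h5 h hh
        rw [nsmul_add, h6, zero_add] at h8
        exact h8
      have h8 : Finite (nsmulAddMonoidHom 2 : G →+ G).range :=
        Finite.of_injective (AddSubgroup.inclusion h7) (AddSubgroup.inclusion_injective h7)
      exact not_finite (nsmulAddMonoidHom 2 : G →+ G).range
    have hSf : Finite S := hS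
    have h5 : Nat.card (G ⧸ (nsmulAddMonoidHom 2 : G →+ G).range) ≤ Nat.card S := by
      refine Nat.card_le_card_of_injective (fun q => (⟨F q, hF1 q (hall q)⟩ : S)) ?_
      intro q q' h
      exact hF2 q q' (hall q) (hall q') (congrArg Subtype.val h)
    rw [hcq, Nat.card_coe_set_eq] at h5
    have h6 := h5.trans hr
    have h7 : 2 ^ (Module.finrank ℤ G + 2) ≤ 2 ^ (2 + r) := by
      rw [pow_add]
      exact h6
    have h8 := (Nat.pow_le_pow_iff_right (by norm_num)).1 h7
    omega

end Pool.Agent.H94.MW
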