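import Pool.Agent.H94.MW.Defs
import Pool.Agent.H94.PN.SCD

set_option autoImplicit false

/-!
# [H94 MW SLP] Points give Selmer classes

`D = 1`, `c = 1`: `DK 1 1 = 1`.  For a point `(x, y)`, `y ≠ 0`, of `y² = ∏ (x - A_k)` over `K = F(t)`, `δ_k = x - A_k`.
* `vln_pt` over any field `M`: `P = X - C x`, `Q = C y` is a Mumford pair: `P` is monic, `P(A_k) = A_k - x ≠ 0`, `P` divides `C 1 * Q ^ 2 - ∏ (X - C A_k)` (root `x`: `dvd_iff_isRoot`; `fA` is the product), and `dvn 1 1 P a = (-1) ^ 1 * (a - x) = x - a`.  `r = 1`, `γ = 1`.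
* `sln_pt`: `ne`: `∏ δ_k = y² ≠ 0`; `prod`; `fin`, `inf`: `vln_pt` for the images in the completions (`map_sub`, injectivity of `algebraMap`).
-/

namespace Pool.Agent.H94.MW

open Polynomial IsDedekindDomain
open Pool.Agent.H94.PL
open Pool.Agent.H94.PM

theorem vln_pt {M : Type} [Field M] {m : ℕ} (A : Fin m → M) {x y : M} (hy : y ≠ 0)
    (h : y ^ 2 = ∏ k, (x - A k)) : IsVln 2 1 1 A fun k => x - A k := by
  have hne : ∀ k, x - A k ≠ 0 := by
    intro k hk
    have h1 : ∏ k, (x - A k) = 0 := Finset.prod_eq_zero (Finset.mem_univ k) hk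
    rw [h1] at h
    exact hy (pow_eq_zero_iff (by norm_num) |>.1 h)
  refine ⟨1, fun _ => X - C x, fun _ => C y, fun _ => 1, fun _ => ⟨monic_X_sub_C x, ?_, ?_⟩,
    fun _ => one_ne_zero, fun k => ?_⟩
  · intro k
    rw [eval_sub, eval_X, eval_C, ← neg_sub, neg_ne_zero]
    exact hne k
  · rw [dvd_iff_isRoot, IsRoot.def, fA, eval_sub, eval_mul, eval_pow, eval_C, eval_C,
      eval_prod, one_mul, h, sub_eq_zero]
    exact Finset.prod_congr rfl fun k _ => by rw [eval_sub, eval_X, eval_C]
  · rw [one_pow, mul_one, Finset.prod_const, Finset.card_univ, Fintype.card_fin, pow_one, dvn,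
      natDegree_X_sub_C, pow_one, pow_one, eval_sub, eval_X, eval_C]
    ring

theorem sln_pt {F : Type} [Field F] [DecidableEq (RatFunc F)] {m : ℕ} (A : Fin m → F[X])
    {x y : RatFunc F} (hy : y ≠ 0)
    (h : y ^ 2 = ∏ k, (x - algebraMap F[X] (RatFunc F) (A k))) :
    IsSln 2 1 1 A (1 : F[X]) fun k => x - algebraMap F[X] (RatFunc F) (A k) := by
  have hne : ∀ k, x - algebraMap F[X] (RatFunc F) (A k) ≠ 0 := by
    intro k hk
    have h1 : ∏ k, (x - algebraMap F[X] (RatFunc F) (A k)) = 0 :=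
      Finset.prod_eq_zero (Finset.mem_univ k) hk
    rw [h1] at h
    exact hy (pow_eq_zero_iff (by norm_num) |>.1 h)
  have hD : DK (1 : F) (1 : F[X]) = 1 := by
    rw [DK, C_1, mul_one, map_one]
  have key : ∀ (M : Type) [Field M] [Algebra (RatFunc F) M],
      IsVln 2 1 (algebraMap (RatFunc F) M (DK (1 : F) (1 : F[X])))
        (fun k => algebraMap (RatFunc F) M (AK A k))
        (fun k => algebraMap (RatFunc F) M (x - algebraMap F[X] (RatFunc F) (A k))) := by
    intro M _ _
    rw [hD, map_one]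
    have h2 := vln_pt (M := M) (fun k => algebraMap (RatFunc F) M (AK A k))
      (x := algebraMap (RatFunc F) M x) (y := algebraMap (RatFunc F) M y)
      (by
        rw [Ne, map_eq_zero]
        exact hy)
      (by
        rw [← map_pow, h, map_prod]
        exact Finset.prod_congr rfl fun k _ => map_sub _ _ _)
    have h3 : (fun k => algebraMap (RatFunc F) M (x - algebraMap F[X] (RatFunc F) (A k))) =
        fun k => algebraMap (RatFunc F) M x - algebraMap (RatFunc F) M (AK A k) := by
      funext k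
      exact map_sub _ _ _
    rw [h3]
    exact h2
  exact ⟨hne, ⟨y, h.symm⟩, fun v => key _, key _⟩

end Pool.Agent.H94.MW
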