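import Pool.Agent.H94.MW.Defs

set_option autoImplicit false

/-!
# [H94 MW TOR] The points of order two

* `two_smul_some`: `2 • (x, y) = 0 ↔ y = 0`: `two_nsmul`, `P + P = 0 ↔ P = - P` (`add_eq_zero_iff_eq_neg`), `- (x, y) = (x, - y)` (`neg_some`, `negY`, `a₁ = a₃ = 0`), `y = - y ↔ y = 0` as `2 ≠ 0`.
* `card_two`: the kernel consists of `0` and the three points `(e i, 0)` (`y = 0` gives `∏ (x - e i) = 0`); they are different as `e` is injective.  (E.g. a bijection from `Option (Fin 3)`.)
-/

namespace Pool.Agent.H94.MW

open WeierstrassCurve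

variable {K : Type} [Field K] [DecidableEq K]

omit [DecidableEq K] in
theorem tor_negY (e : Fin 3 → K) (x y : K) : (crv e).toAffine.negY x y = -y := by
  show -y - 0 * x - 0 = -y
  ring

theorem two_smul_some (h2 : (2 : K) ≠ 0) {e : Fin 3 → K} {x y : K}
    (h : (crv e).toAffine.Nonsingular x y) :
    2 • (Affine.Point.some x y h : (crv e).toAffine.Point) = 0 ↔ y = 0 := by
  rw [two_nsmul, add_eq_zero_iff_eq_neg, Affine.Point.neg_some, Affine.Point.some.injEq]
  constructor
  · rintro ⟨-, h1⟩
    rw [tor_negY] at h1
    have h3 : 2 * y = 0 := by linear_combination h1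
    exact (mul_eq_zero.1 h3).resolve_left h2
  · intro h1
    refine ⟨rfl, ?_⟩
    rw [tor_negY, h1, neg_zero]

theorem tor_ns (h2 : (2 : K) ≠ 0) {e : Fin 3 → K} (he : Function.Injective e) (i : Fin 3) :
    (crv e).toAffine.Nonsingular (e i) 0 := by
  rw [nonsing_iff h2 he]
  rw [Finset.prod_eq_zero (Finset.mem_univ i) (sub_self _)]
  norm_num

theorem card_two (h2 : (2 : K) ≠ 0) {e : Fin 3 → K} (he : Function.Injective e) :
    Nat.card (nsmulAddMonoidHom 2 :
      (crv e).toAffine.Point →+ (crv e).toAffine.Point).ker = 4 := by
  have hbij : Function.Bijective (fun o : Option (Fin 3) =>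
      (match o with
        | none => ⟨0, by rw [AddMonoidHom.mem_ker, nsmulAddMonoidHom_apply, nsmul_zero]⟩
        | some i => ⟨Affine.Point.some (e i) 0 (tor_ns h2 he i), by
            rw [AddMonoidHom.mem_ker, nsmulAddMonoidHom_apply]
            exact (two_smul_some h2 _).2 rfl⟩ :
        (nsmulAddMonoidHom 2 : (crv e).toAffine.Point →+ (crv e).toAffine.Point).ker)) := by
    constructor
    · intro o o' h
      cases o with
      | none =>
        cases o' with
        | none => rfl
        | some j =>
          have := congrArg Subtype.val h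
          exact absurd this.symm (Affine.Point.some_ne_zero _)
      | some i =>
        cases o' with
        | none =>
          have := congrArg Subtype.val h
          exact absurd this (Affine.Point.some_ne_zero _)
        | some j =>
          have h1 := congrArg Subtype.val h
          simp only [Affine.Point.some.injEq] at h1
          rw [he h1.1]
    · rintro ⟨P, hP⟩
      rw [AddMonoidHom.mem_ker, nsmulAddMonoidHom_apply] at hP
      cases P with
      | zero => exact ⟨none, rfl⟩
      | some x y h =>
        have hy : y = 0 := (two_smul_some h2 h).1 hP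
        subst hy
        have h1 := (nonsing_iff h2 he x 0).1 h
        rw [zero_pow (by norm_num)] at h1
        obtain ⟨i, -, hi⟩ := Finset.prod_eq_zero_iff.1 h1.symm
        refine ⟨some i, ?_⟩
        apply Subtype.ext
        have h3 : x = e i := sub_eq_zero.1 hi
        subst h3
        rfl
  rw [← Nat.card_congr (Equiv.ofBijective _ hbij), Nat.card_eq_fintype_card]
  rfl

end Pool.Agent.H94.MW
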