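import Pool.Agent.H94.MW.Plg
import Pool.Agent.H94.MW.Adx
import Pool.Agent.H94.MW.Grp
import Pool.Agent.H94.MW.Tor
import Pool.Agent.H94.MW.Slp
import Pool.Agent.H94.MW.Ab2

set_option autoImplicit false

/-!
# [H94 MW MW] The Mordell-Weil group and its rank

`e i = algebraMap (A i)`, `E = (crv e).toAffine.Point`, `C = Fin 3 → Kˣ / Kˣ²`, `κ (x, y)` = the class of `(x - e k)_k` if `y ≠ 0`, `1` in all other cases (by cases; `Units.mk0`), `S = SelC 2 1 1 A 1`.
* `h1` of `fin_idx`, `rk_bd`: `two_smul_some`, `nonsing_iff`, `sln_pt`.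
* `h2`: equal classes: `(x₁ - e k) / (x₂ - e k)` is the square of a unit (`QuotientGroup.eq`, `powMonoidHom`), `dfh`, `two_nsmul`.
* `h4`: `card_two`.
* finitely generated: `ht`, `plg`, `npt`, `fin_idx` and `AddCommGroup.fg_of_descent'` (Mathlib, `GroupTheory/Descent`).
-/

namespace Pool.Agent.H94.MW

open Polynomial IsDedekindDomain WeierstrassCurve

variable {F : Type} [Field F] [Finite F] [DecidableEq (RatFunc F)]

/-- the descent map -/
private noncomputable def mw_kf {K : Type} [Field K] (e : Fin 3 → K) :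
    (crv e).toAffine.Point → (Fin 3 → Kˣ ⧸ (powMonoidHom 2 : Kˣ →* Kˣ).range)
  | .zero => fun _ => 1
  | .some x _ _ => fun k =>
      open Classical in
      if hk : x - e k = 0 then 1 else QuotientGroup.mk (Units.mk0 (x - e k) hk)

omit [Finite F] [DecidableEq (RatFunc F)] in
private theorem mw_two (h2 : (2 : F) ≠ 0) : (2 : RatFunc F) ≠ 0 := by
  intro h
  apply h2
  have h1 : algebraMap F (RatFunc F) 2 = 0 := by rw [map_ofNat]; exact h
  exact (map_eq_zero_iff _ (algebraMap F (RatFunc F)).injective).mp h1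

omit [Finite F] [DecidableEq (RatFunc F)] in
private theorem mw_inj {A : Fin 3 → F[X]} (hA : Function.Injective A) :
    Function.Injective fun i => algebraMap F[X] (RatFunc F) (A i) :=
  (RatFunc.algebraMap_injective F).comp hA

private theorem mw_ne {K : Type} [Field K] {e : Fin 3 → K} {x y : K} (hy : y ≠ 0)
    (h : y ^ 2 = ∏ i, (x - e i)) (k : Fin 3) : x - e k ≠ 0 := by
  intro hk
  apply hy
  have h1 : ∏ i, (x - e i) = 0 := Finset.prod_eq_zero (Finset.mem_univ k) hk
  rw [h1] at h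
  exact pow_eq_zero_iff (two_ne_zero) |>.mp h

private theorem mw_kf_some {K : Type} [Field K] {e : Fin 3 → K} {x y : K}
    (h : (crv e).toAffine.Nonsingular x y) (k : Fin 3) (hk : x - e k ≠ 0) :
    mw_kf e (.some x y h) k = QuotientGroup.mk (Units.mk0 (x - e k) hk) := by
  unfold mw_kf
  exact dif_neg hk

private theorem mw_zero {K : Type} [Field K] [DecidableEq K] (e : Fin 3 → K) :
    2 • (Affine.Point.zero : (crv e).toAffine.Point) = 0 := by
  have h : (Affine.Point.zero : (crv e).toAffine.Point) = 0 := rfl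
  rw [h, smul_zero]

theorem kap (h2 : (2 : F) ≠ 0) {A : Fin 3 → F[X]} (hA : Function.Injective A) :
    ∃ κ : (crv fun i => algebraMap F[X] (RatFunc F) (A i)).toAffine.Point →
      (Fin 3 → (RatFunc F)ˣ ⧸ (powMonoidHom 2 : (RatFunc F)ˣ →* (RatFunc F)ˣ).range),
      (∀ g, 2 • g ≠ 0 → κ g ∈ H94.PN.SelC 2 1 1 A (1 : F[X])) ∧
      ∀ g g', 2 • g ≠ 0 → 2 • g' ≠ 0 → κ g = κ g' → ∃ r, g - g' = 2 • r := by
  have h2K := mw_two h2
  have he := mw_inj hA
  refine ⟨mw_kf fun i => algebraMap F[X] (RatFunc F) (A i), ?_, ?_⟩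
  · intro g hg
    match g, hg with
    | .zero, hg => exact (hg (mw_zero _)).elim
    | .some x y h, hg =>
      have hy : y ≠ 0 := fun hy => hg ((two_smul_some h2K h).mpr hy)
      have hns := (nonsing_iff h2K he x y).mp h
      have hne := mw_ne hy hns
      refine ⟨fun k => Units.mk0 (x - algebraMap F[X] (RatFunc F) (A k)) (hne k),
        fun k => mw_kf_some h k (hne k), ?_⟩
      exact sln_pt A hy hns
  · intro g g' hg hg' hκ
    match g, g', hg, hg', hκ with
    | .zero, _, hg, _, _ => exact (hg (mw_zero _)).elim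
    | .some _ _ _, .zero, _, hg', _ => exact (hg' (mw_zero _)).elim
    | .some x₁ y₁ h₁, .some x₂ y₂ h₂, hg, hg', hκ =>
      have hy₁ : y₁ ≠ 0 := fun hy => hg ((two_smul_some h2K h₁).mpr hy)
      have hy₂ : y₂ ≠ 0 := fun hy => hg' ((two_smul_some h2K h₂).mpr hy)
      have hne₁ := mw_ne hy₁ ((nonsing_iff h2K he x₁ y₁).mp h₁)
      have hne₂ := mw_ne hy₂ ((nonsing_iff h2K he x₂ y₂).mp h₂)
      have ht : ∀ i, ∃ t : RatFunc F, t ≠ 0 ∧ x₁ - algebraMap F[X] (RatFunc F) (A i) =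
          (x₂ - algebraMap F[X] (RatFunc F) (A i)) * t ^ 2 := by
        intro i
        have h3 := (congrFun hκ i).symm
        rw [mw_kf_some h₁ i (hne₁ i), mw_kf_some h₂ i (hne₂ i)] at h3
        obtain ⟨w, hw⟩ := QuotientGroup.eq.1 h3
        refine ⟨(w : RatFunc F), w.ne_zero, ?_⟩
        have h4 := congrArg (fun u : (RatFunc F)ˣ => (u : RatFunc F)) hw
        simp only [powMonoidHom_apply, Units.val_pow_eq_pow_val, Units.val_mul,
          Units.val_inv_eq_inv_val, Units.val_mk0] at h4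
        rw [h4, mul_inv_cancel_left₀ (hne₂ i)]
      obtain ⟨R, hR⟩ := dfh h2K he h₁ h₂ hy₁ hy₂ ht
      exact ⟨R, by rw [hR, two_nsmul]⟩

theorem mw_fg (h2 : (2 : F) ≠ 0) {A : Fin 3 → F[X]} (hA : Function.Injective A)
    (hS : (H94.PN.SelC 2 1 1 A (1 : F[X])).Finite) :
    AddGroup.FG (crv fun i => algebraMap F[X] (RatFunc F) (A i)).toAffine.Point := by
  have h2K := mw_two h2
  have he := mw_inj hA
  obtain ⟨κ, hκ1, hκ2⟩ := kap h2 hA
  have hidx := fin_idx κ hS hκ1 hκ2 (card_two h2K he)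
  obtain ⟨inst, hN⟩ := ht F
  obtain ⟨C, hC⟩ := plg h2K he
  have hnp : Northcott (hp (e := fun i => algebraMap F[X] (RatFunc F) (A i))) := npt
  exact AddCommGroup.fg_of_descent' (h := hp) hidx (fun x => Height.logHeight_nonneg _) hC

theorem mw_rk (h2 : (2 : F) ≠ 0) {A : Fin 3 → F[X]} (hA : Function.Injective A) {r : ℕ}
    (hS : Nat.card (H94.PN.SelC 2 1 1 A (1 : F[X])) = 2 ^ (2 + r)) :
    Module.finrank ℤ (crv fun i => algebraMap F[X] (RatFunc F) (A i)).toAffine.Point ≤ r := by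
  have h2K := mw_two h2
  have he := mw_inj hA
  have hfin : (H94.PN.SelC 2 1 1 A (1 : F[X])).Finite := by
    have h1 : Nat.card (H94.PN.SelC 2 1 1 A (1 : F[X])) ≠ 0 := by
      rw [hS]
      positivity
    exact Set.finite_coe_iff.mp (Nat.finite_of_card_ne_zero h1)
  obtain ⟨κ, hκ1, hκ2⟩ := kap h2 hA
  exact rk_bd (mw_fg h2 hA hfin) κ hfin hκ1 hκ2 (card_two h2K he) (le_of_eq (by
    rw [← Nat.card_coe_set_eq]
    exact hS))

end Pool.Agent.H94.MW
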