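import Pool.Agent.H94.MW.Odr
import Pool.Agent.H94.MW.Tor

set_option autoImplicit false

/-!
# [H94 MW ODT] The torsion points

`e = (0, A, B)` (images in `F(t)`).
* `dbl`: for `P = (x, y)`, `y ≠ 0`: `2 P = (x₂, y₂)` with `x₂ - e j = ((x - e j)² - (e j - e i) (e j - e k))² / (2 y)²`, `{i, j, k} = {0, 1, 2}`: slope `λ = (3 x² + 2 a₂ x + a₄) / (2 y)`, `x₂ = λ² - a₂ - 2 x` (`add_self_of_Y_ne`, `slope_of_Y_ne`), `y² = ∏ (x - e i)`.  In particular all `x₂ - e j` are squares, and for `e 0 = 0`: `x₂ = (x² - e 1 e 2)² / (4 y²)`.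
* `no_two`: a point `(e i, 0)` is not in `2 E`: else `e i - e j` is a square in `F(t)` for `j ≠ i`, but it is (up to sign) `A`, `B` or `A - B`, of odd degree `d` (`RatFunc.intDegree` of a square is even).
* `odt`: let `P` be of finite order and `2 • P ≠ 0`.  `n = addOrderOf P = 2 ^ a * m`, `m` odd.  If `m = 1`: `a ≥ 2`, `T = 2 ^ (a - 1) • P = 2 • (2 ^ (a - 2) • P)` has order `2`, so `T = (e i, 0)` (`two_smul_some`), against `no_two`.  If `m > 1`: `Q = 2 ^ a • P` has odd order `m > 1`.  The finite set of the multiples `j • Q ≠ 0`, `j < m`;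
  choose `R = (x, y)` in it with the maximal degree of `denom x`.  `R` has odd order (it is a multiple of `Q`), so `R = 2 • R'` with `R'` a multiple of `Q` (`2` is invertible modulo `m`), `R' ≠ 0`, `2 R' ≠ 0`, so by `dbl` `x`, `x - A`, `x - B` are squares; they are not zero as `y ≠ 0` (`2 R ≠ 0`, `two_smul_some`).  `2 • R ≠ 0` is in the set, `x(2R) = (x² - A B)² / (4 x (x - A) (x - B))` (`dbl`),
  and `odr` contradicts the maximality.
-/

namespace Pool.Agent.H94.MW

open Polynomial WeierstrassCurve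

section
variable {K : Type} [Field K] [DecidableEq K]

theorem dbl (h2 : (2 : K) ≠ 0) {e : Fin 3 → K} (he : Function.Injective e) {x y : K}
    (h : (crv e).toAffine.Nonsingular x y) (hy : y ≠ 0) :
    ∃ (x₂ y₂ : K) (h' : (crv e).toAffine.Nonsingular x₂ y₂),
      2 • (Affine.Point.some x y h : (crv e).toAffine.Point) = .some x₂ y₂ h' ∧
      x₂ - e 0 = ((x - e 0) ^ 2 - (e 0 - e 1) * (e 0 - e 2)) ^ 2 / (2 * y) ^ 2 ∧
      x₂ - e 1 = ((x - e 1) ^ 2 - (e 1 - e 0) * (e 1 - e 2)) ^ 2 / (2 * y) ^ 2 ∧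
      x₂ - e 2 = ((x - e 2) ^ 2 - (e 2 - e 0) * (e 2 - e 1)) ^ 2 / (2 * y) ^ 2 := by
  have hy2 : y ≠ (crv e).toAffine.negY x y := by
    rw [tor_negY]
    intro h1
    have h3 : 2 * y = 0 := by linear_combination h1
    exact (mul_eq_zero.1 h3).elim h2 hy
  have h2y : 2 * y ≠ 0 := mul_ne_zero h2 hy
  have hs : (crv e).toAffine.slope x x y y =
      (3 * x ^ 2 + 2 * (-(e 0 + e 1 + e 2)) * x + (e 0 * e 1 + e 0 * e 2 + e 1 * e 2)) /
        (2 * y) := by
    rw [Affine.slope_of_Y_ne rfl hy2, tor_negY]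
    show (3 * x ^ 2 + 2 * (-(e 0 + e 1 + e 2)) * x + (e 0 * e 1 + e 0 * e 2 + e 1 * e 2) -
      0 * y) / (y - -y) = _
    rw [zero_mul, sub_zero, sub_neg_eq_add, ← two_mul]
  have hX : (crv e).toAffine.addX x x ((crv e).toAffine.slope x x y y) =
      ((3 * x ^ 2 + 2 * (-(e 0 + e 1 + e 2)) * x + (e 0 * e 1 + e 0 * e 2 + e 1 * e 2)) /
        (2 * y)) ^ 2 + (e 0 + e 1 + e 2) - 2 * x := by
    rw [hs]
    show _ ^ 2 + 0 * _ - (-(e 0 + e 1 + e 2)) - x - x = _
    ring
  have hE : y ^ 2 = (x - e 0) * (x - e 1) * (x - e 2) := by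
    have h4 := (nonsing_iff h2 he x y).1 h
    rwa [Fin.prod_univ_three] at h4
  have hE' : (2 * y) ^ 2 = 4 * ((x - e 0) * (x - e 1) * (x - e 2)) := by
    rw [← hE]
    ring
  refine ⟨_, _, _, (two_nsmul _).trans (Affine.Point.add_self_of_Y_ne hy2), ?_, ?_, ?_⟩
  · rw [hX, eq_div_iff (pow_ne_zero 2 h2y), div_pow, sub_mul, sub_mul, add_mul,
      div_mul_cancel₀ _ (pow_ne_zero 2 h2y), hE']
    ring
  · rw [hX, eq_div_iff (pow_ne_zero 2 h2y), div_pow, sub_mul, sub_mul, add_mul,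
      div_mul_cancel₀ _ (pow_ne_zero 2 h2y), hE']
    ring
  · rw [hX, eq_div_iff (pow_ne_zero 2 h2y), div_pow, sub_mul, sub_mul, add_mul,
      div_mul_cancel₀ _ (pow_ne_zero 2 h2y), hE']
    ring

end

section
variable {F : Type} [Field F]

private theorem odt_sq {G : F[X]} (hG : Odd G.natDegree) :
    ¬ IsSquare (algebraMap F[X] (RatFunc F) G) := by
  rintro ⟨s, hs⟩
  have hG0 : G ≠ 0 := by
    rintro rfl
    rw [natDegree_zero] at hG
    exact absurd hG (by decide)
  have hs0 : s ≠ 0 := by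
    rintro rfl
    rw [mul_zero] at hs
    exact hG0 ((map_eq_zero_iff _ (RatFunc.algebraMap_injective F)).1 hs)
  have h1 : (G.natDegree : ℤ) = s.intDegree + s.intDegree := by
    rw [← RatFunc.intDegree_mul hs0 hs0, ← hs, RatFunc.intDegree_polynomial]
  obtain ⟨k, hk⟩ := hG
  rw [hk] at h1
  push_cast at h1
  omega

variable [DecidableEq (RatFunc F)]

private theorem odt_no {e : Fin 3 → RatFunc F} (h2 : (2 : RatFunc F) ≠ 0)
    (he : Function.Injective e) (hn : ∀ i, ∃ j, j ≠ i ∧ ¬ IsSquare (e i - e j))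
    (Q : (crv e).toAffine.Point) (hQ : 2 • (2 • Q) = 0) : 2 • Q = 0 := by
  by_contra hne
  cases Q with
  | zero => exact hne (nsmul_zero 2)
  | some x y h =>
    have hy : y ≠ 0 := fun hy => hne ((two_smul_some h2 h).2 hy)
    obtain ⟨x₂, y₂, h', e1, s0, s1, s2⟩ := dbl h2 he h hy
    rw [e1] at hQ
    have hy2 : y₂ = 0 := (two_smul_some h2 h').1 hQ
    have h3 := (nonsing_iff h2 he x₂ y₂).1 h'
    rw [hy2, zero_pow (by norm_num)] at h3
    obtain ⟨i, -, hi⟩ := Finset.prod_eq_zero_iff.1 h3.symm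
    have hi' : x₂ = e i := sub_eq_zero.1 hi
    obtain ⟨j, -, hj⟩ := hn i
    apply hj
    rw [← hi']
    have hsq : ∀ a b : RatFunc F, IsSquare (a ^ 2 / b ^ 2) := fun a b =>
      ⟨a / b, by rw [← div_pow, sq]⟩
    fin_cases j
    · show IsSquare (x₂ - e 0)
      rw [s0]
      exact hsq _ _
    · show IsSquare (x₂ - e 1)
      rw [s1]
      exact hsq _ _
    · show IsSquare (x₂ - e 2)
      rw [s2]
      exact hsq _ _

private theorem odt_pow {e : Fin 3 → RatFunc F} (h2 : (2 : RatFunc F) ≠ 0)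
    (he : Function.Injective e) (hn : ∀ i, ∃ j, j ≠ i ∧ ¬ IsSquare (e i - e j)) (a : ℕ) :
    ∀ (Q : (crv e).toAffine.Point), 2 ^ a • Q = 0 → 2 • Q = 0 := by
  induction a with
  | zero =>
    intro Q hQ
    rw [pow_zero, one_nsmul] at hQ
    rw [hQ, nsmul_zero]
  | succ a ih =>
    intro Q hQ
    apply odt_no h2 he hn
    apply ih
    rw [← mul_nsmul', ← pow_succ]
    exact hQ

/-- the degree of the denominator of `x` -/
private noncomputable def odtD {e : Fin 3 → RatFunc F} : (crv e).toAffine.Point → ℕ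
  | .zero => 0
  | .some x _ _ => (RatFunc.denom x).natDegree

private theorem odt_main (h2 : (2 : F) ≠ 0) {A B : F[X]} {d : ℕ} (hd : Odd d)
    (hA : A.natDegree = d)
    (hB : B.natDegree = d) (hAB : (A - B).natDegree = d) (hs : Squarefree (A * B * (A - B)))
    {e : Fin 3 → RatFunc F} (e0 : e 0 = 0) (e1 : e 1 = algebraMap F[X] (RatFunc F) A)
    (e2 : e 2 = algebraMap F[X] (RatFunc F) B)
    (P : (crv e).toAffine.Point) (hP : IsOfFinAddOrder P) : 2 • P = 0 := by
  have hinj := RatFunc.algebraMap_injective F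
  have hd0 : d ≠ 0 := by
    rintro rfl
    exact absurd hd (by decide)
  have hA0 : A ≠ 0 := by
    rintro rfl
    exact hd0 (hA.symm.trans natDegree_zero)
  have hB0 : B ≠ 0 := by
    rintro rfl
    exact hd0 (hB.symm.trans natDegree_zero)
  have hAB0 : A - B ≠ 0 := by
    intro h
    rw [h, natDegree_zero] at hAB
    exact hd0 hAB.symm
  have h2' : (2 : RatFunc F) ≠ 0 := by
    have h3 : (algebraMap F[X] (RatFunc F)) (C (2 : F)) ≠ 0 := by
      rw [Ne, map_eq_zero_iff _ hinj, C_eq_zero]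
      exact h2
    have h4 : (algebraMap F[X] (RatFunc F)) (C (2 : F)) = 2 := by
      rw [map_ofNat C 2, map_ofNat]
    rwa [h4] at h3
  have he : Function.Injective e := by
    have h5 : Function.Injective (![0, A, B] : Fin 3 → F[X]) := by
      intro i j hij
      fin_cases i <;> fin_cases j <;> first
        | rfl
        | (exfalso; revert hij; simp [hA0, hB0, hA0.symm, hB0.symm, sub_ne_zero.1 hAB0,
            (sub_ne_zero.1 hAB0).symm])
    have h6 : e = fun i => algebraMap F[X] (RatFunc F) ((![0, A, B] : Fin 3 → F[X]) i) := by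
      funext i
      fin_cases i
      · exact e0.trans (map_zero _).symm
      · exact e1
      · exact e2
    rw [h6]
    exact hinj.comp h5
  have hn : ∀ i, ∃ j, j ≠ i ∧ ¬ IsSquare (e i - e j) := by
    intro i
    fin_cases i
    · refine ⟨1, by decide, ?_⟩
      show ¬ IsSquare (e 0 - e 1)
      rw [e0, e1, zero_sub, ← map_neg]
      apply odt_sq
      rw [natDegree_neg, hA]
      exact hd
    · refine ⟨0, by decide, ?_⟩
      show ¬ IsSquare (e 1 - e 0)
      rw [e0, e1, sub_zero]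
      apply odt_sq
      rw [hA]
      exact hd
    · refine ⟨0, by decide, ?_⟩
      show ¬ IsSquare (e 2 - e 0)
      rw [e0, e2, sub_zero]
      apply odt_sq
      rw [hB]
      exact hd
  obtain ⟨n, hn0, hnP⟩ := isOfFinAddOrder_iff_nsmul_eq_zero.1 hP
  obtain ⟨a, m, hm, hnm⟩ := Nat.exists_eq_two_pow_mul_odd (Nat.pos_iff_ne_zero.1 hn0)
  by_contra hcon
  have hQ0 : 2 ^ a • P ≠ 0 := fun h => hcon (odt_pow h2' he hn a P h)
  set Q := 2 ^ a • P with hQdef
  have hmQ : m • Q = 0 := by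
    rw [hQdef, ← mul_nsmul', mul_comm, ← hnm]
    exact hnP
  have hmz : ∀ R ∈ AddSubgroup.zmultiples Q, m • R = 0 := by
    rintro R ⟨k, rfl⟩
    show m • (k • Q) = 0
    rw [smul_comm, hmQ, zsmul_zero]
  have h2z : ∀ R ∈ AddSubgroup.zmultiples Q, 2 • R = 0 → R = 0 := by
    intro R hR h
    obtain ⟨t, ht⟩ := hm
    have h6 := hmz R hR
    rw [ht, add_nsmul, mul_nsmul, one_nsmul, h, nsmul_zero, zero_add] at h6
    exact h6
  have hfin : (AddSubgroup.zmultiples Q : Set (crv e).toAffine.Point).Finite := by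
    have h7 : IsOfFinAddOrder Q := isOfFinAddOrder_iff_nsmul_eq_zero.2
      ⟨m, hm.pos, hmQ⟩
    exact h7.finite_zmultiples
  have hfin2 : ({R | R ∈ AddSubgroup.zmultiples Q ∧ R ≠ 0} :
      Set (crv e).toAffine.Point).Finite := hfin.subset fun R hR => hR.1
  obtain ⟨R, hR, hmax⟩ := hfin2.exists_maximalFor odtD _
    ⟨Q, AddSubgroup.mem_zmultiples Q, hQ0⟩
  have hdeg : ∀ R' ∈ AddSubgroup.zmultiples Q, R' ≠ 0 → odtD R' ≤ odtD R := by
    intro R' h8 h9
    by_contra h10
    exact h10 (hmax ⟨h8, h9⟩ (not_le.1 h10).le)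
  obtain ⟨hRz, hR0⟩ := hR
  -- half of `R`
  obtain ⟨R', hR'z, hR'⟩ : ∃ R' ∈ AddSubgroup.zmultiples Q, 2 • R' = R := by
    obtain ⟨t, ht⟩ := hm
    refine ⟨(t + 1) • R, AddSubgroup.nsmul_mem _ hRz _, ?_⟩
    rw [← mul_nsmul']
    have h6 := hmz R hRz
    rw [ht, add_nsmul, one_nsmul] at h6
    rw [mul_add, add_nsmul, mul_one, two_nsmul R, ← add_assoc, h6, zero_add]
  have h2R : 2 • R ≠ 0 := fun h => hR0 (h2z R hRz h)
  have hR'0 : 2 • R' ≠ 0 := by
    rw [hR']
    exact hR0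
  have hsq : ∀ a b : RatFunc F, IsSquare (a ^ 2 / b ^ 2) := fun a b =>
    ⟨a / b, by rw [← div_pow, sq]⟩
  cases R' with
  | zero => exact hR'0 (nsmul_zero 2)
  | some x' y' h' =>
    have hy' : y' ≠ 0 := fun hy => hR'0 ((two_smul_some h2' h').2 hy)
    obtain ⟨x, y, h, E1, s0, s1, s2⟩ := dbl h2' he h' hy'
    rw [E1] at hR'
    have hy : y ≠ 0 := by
      intro hy
      rw [← hR'] at h2R
      exact h2R ((two_smul_some h2' h).2 hy)
    obtain ⟨x₂, y₂, h'', E2, t0, t1, t2⟩ := dbl h2' he h hy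
    have hE : y ^ 2 = (x - e 0) * (x - e 1) * (x - e 2) := by
      have h4 := (nonsing_iff h2' he x y).1 h
      rwa [Fin.prod_univ_three] at h4
    have hprod : (x - e 0) * (x - e 1) * (x - e 2) ≠ 0 := by
      rw [← hE]
      exact pow_ne_zero 2 hy
    have n0 : x - e 0 ≠ 0 := left_ne_zero_of_mul (left_ne_zero_of_mul hprod)
    have n1 : x - e 1 ≠ 0 := right_ne_zero_of_mul (left_ne_zero_of_mul hprod)
    have n2 : x - e 2 ≠ 0 := right_ne_zero_of_mul hprod
    have q0 : IsSquare (x - e 0) := by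
      rw [s0]
      exact hsq _ _
    have q1 : IsSquare (x - e 1) := by
      rw [s1]
      exact hsq _ _
    have q2 : IsSquare (x - e 2) := by
      rw [s2]
      exact hsq _ _
    rw [e0, sub_zero] at n0 q0
    rw [e1] at n1 q1
    rw [e2] at n2 q2
    have hlt := odr h2 hs (by rw [hA]; exact hd0) n0 n1 n2 q0 q1 q2
    have hx2 : x₂ = (x ^ 2 - algebraMap F[X] (RatFunc F) A * algebraMap F[X] (RatFunc F) B) ^ 2 /
        (4 * (x * (x - algebraMap F[X] (RatFunc F) A) *
          (x - algebraMap F[X] (RatFunc F) B))) := by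
      rw [e0, e1, e2] at t0
      rw [e0, e1, e2] at hE
      have h11 : (2 * y) ^ 2 = 4 * (x * (x - algebraMap F[X] (RatFunc F) A) *
          (x - algebraMap F[X] (RatFunc F) B)) := by
        rw [mul_pow, hE]
        ring
      rw [← h11]
      rw [sub_zero, sub_zero, zero_sub, zero_sub, neg_mul_neg] at t0
      exact t0
    rw [← hx2] at hlt
    have h12 := hdeg (2 • R) (AddSubgroup.nsmul_mem _ hRz 2) h2R
    rw [← hR', E2] at h12
    exact absurd h12 (not_le.2 hlt)


theorem odt (h2 : (2 : F) ≠ 0) {A B : F[X]} {d : ℕ} (hd : Odd d) (hA : A.natDegree = d)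
    (hB : B.natDegree = d) (hAB : (A - B).natDegree = d) (hs : Squarefree (A * B * (A - B)))
    (P : (crv fun i => algebraMap F[X] (RatFunc F) ((![0, A, B] : Fin 3 → F[X]) i)).toAffine.Point)
    (hP : IsOfFinAddOrder P) : 2 • P = 0 := by
  exact odt_main (e := fun i => algebraMap F[X] (RatFunc F) ((![0, A, B] : Fin 3 → F[X]) i))
    h2 hd hA hB hAB hs (map_zero _) rfl rfl P hP

end

end Pool.Agent.H94.MW
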