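import Mathlib

set_option autoImplicit false

/-!
# [H94 MW STR] The structure of a finitely generated group with torsion `(ℤ/2)²`

The torsion subgroup is `T = ker 2`: an elementary abelian group with four elements, so a vector space over `ZMod 2` of dimension 2 (`AddCommGroup.zmodModule`), isomorphic to `ZMod 2 × ZMod 2` (`LinearEquiv.ofFinrankEq`).  `G` is a finitely generated module over the principal ideal domain `ℤ`, so `G ≃ T × G / T` and `G / T` is free of rank
`finrank ℤ G` (`Submodule.exists_isInternal_prime_power_torsion...` / `Module.equiv_free_prod_directSum`: `G ≃ (Fin n →₀ ℤ) × T'` with `T'` torsion (finite); then `T ≃ T'` and `n = finrank ℤ G` since `finrank (M × N) = finrank M + finrank N` and `finrank ℤ T' = 0`).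
-/

namespace Pool.Agent.H94.MW

variable {G : Type} [AddCommGroup G]

private theorem str_aux {T : Type} [AddCommGroup T] [Finite T] {n : ℕ}
    (ht : ∀ g : G, IsOfFinAddOrder g → 2 • g = 0)
    (h4 : Nat.card (nsmulAddMonoidHom 2 : G →+ G).ker = 4)
    (φ : G ≃+ (Fin n →₀ ℤ) × T) :
    Nonempty (G ≃+ (ZMod 2 × ZMod 2) × (Fin (Module.finrank ℤ G) → ℤ)) := by
  have hT : ∀ t : T, 2 • t = 0 := by
    intro t
    have h1 : IsOfFinAddOrder (φ.symm (0, t)) := by
      have h2 : IsOfFinAddOrder ((0, t) : (Fin n →₀ ℤ) × T) := by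
        have h3 : IsOfFinAddOrder t := isOfFinAddOrder_of_finite t
        have h4 := (AddMonoidHom.inr (Fin n →₀ ℤ) T).isOfFinAddOrder h3
        exact h4
      exact φ.symm.toAddMonoidHom.isOfFinAddOrder h2
    have h5 := ht _ h1
    rw [← map_nsmul] at h5
    have h6 := (map_eq_zero_iff φ.symm φ.symm.injective).1 h5
    have h7 := congrArg Prod.snd h6
    exact h7
  have hker : Nat.card T = 4 := by
    rw [← h4]
    apply Nat.card_congr
    refine
      { toFun := fun t => ⟨φ.symm (0, t), ?_⟩
        invFun := fun g => (φ g.1).2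
        left_inv := ?_
        right_inv := ?_ }
    · rw [AddMonoidHom.mem_ker, nsmulAddMonoidHom_apply, ← map_nsmul]
      have : (2 • ((0, t) : (Fin n →₀ ℤ) × T)) = 0 := by
        rw [Prod.smul_mk, hT t, smul_zero]
        rfl
      rw [this, map_zero]
    · intro t
      simp
    · rintro ⟨g, hg⟩
      apply Subtype.ext
      rw [AddMonoidHom.mem_ker, nsmulAddMonoidHom_apply] at hg
      have h1 : 2 • φ g = 0 := by rw [← map_nsmul, hg, map_zero]
      have h2 : (φ g).1 = 0 := by
        have h3 : 2 • (φ g).1 = 0 := congrArg Prod.fst h1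
        ext i
        have h5 : 2 • ((φ g).1 i) = 0 := DFunLike.congr_fun h3 i
        simpa using h5
      show φ.symm (0, (φ g).2) = g
      rw [← h2]
      exact φ.symm_apply_apply g
  let _ : Module (ZMod 2) T := AddCommGroup.zmodModule hT
  have : Module.Finite (ZMod 2) T := Module.Finite.of_finite
  have : Fact (Nat.Prime 2) := ⟨Nat.prime_two⟩
  have hfr : Module.finrank (ZMod 2) T = 2 := by
    have := Fintype.ofFinite T
    have h1 := Module.card_eq_pow_finrank (K := ZMod 2) (V := T)
    rw [← Nat.card_eq_fintype_card, hker, ZMod.card] at h1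
    have h2 : (2 : ℕ) ^ 2 = 2 ^ Module.finrank (ZMod 2) T := by
      rw [← h1]
      norm_num
    exact (Nat.pow_right_injective (le_refl 2) h2).symm
  have hfr2 : Module.finrank (ZMod 2) (ZMod 2 × ZMod 2) = 2 := by
    rw [Module.finrank_prod, Module.finrank_self]
  let ψ : T ≃ₗ[ZMod 2] ZMod 2 × ZMod 2 := LinearEquiv.ofFinrankEq _ _ (hfr.trans hfr2.symm)
  have hn : Module.finrank ℤ G = n := by
    have h1 : Module.finrank ℤ G = Module.finrank ℤ ((Fin n →₀ ℤ) × T) :=
      LinearEquiv.finrank_eq φ.toIntLinearEquiv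
    rw [h1]
    have : Module.Finite ℤ T := Module.Finite.of_finite
    have h2 : Module.finrank ℤ T = 0 := by
      rw [Module.finrank_eq_zero_iff_isTorsion]
      intro x
      refine ⟨⟨2, by simp⟩, ?_⟩
      have := hT x
      rw [Submonoid.mk_smul]
      rw [← natCast_zsmul] at this
      exact_mod_cast this
    have h3 := Submodule.finrank_quotient_add_finrank
      (LinearMap.ker (LinearMap.fst ℤ (Fin n →₀ ℤ) T))
    have h4 := LinearEquiv.finrank_eq ((LinearMap.fst ℤ (Fin n →₀ ℤ) T).quotKerEquivOfSurjective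
      LinearMap.fst_surjective)
    rw [h4, LinearMap.ker_fst,
      LinearMap.finrank_range_of_inj LinearMap.inr_injective, h2, add_zero] at h3
    rw [← h3]
    simp
  rw [hn]
  exact ⟨φ.trans ((AddEquiv.prodCongr (Finsupp.linearEquivFunOnFinite ℤ ℤ (Fin n)).toAddEquiv
    ψ.toAddEquiv).trans AddEquiv.prodComm)⟩

theorem str (hG : AddGroup.FG G) (ht : ∀ g : G, IsOfFinAddOrder g → 2 • g = 0)
    (h4 : Nat.card (nsmulAddMonoidHom 2 : G →+ G).ker = 4) :
    Nonempty (G ≃+ (ZMod 2 × ZMod 2) × (Fin (Module.finrank ℤ G) → ℤ)) := by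
  obtain ⟨n, ι, hι, p, hp, e, ⟨φ⟩⟩ := AddCommGroup.equiv_free_prod_directSum_zmod (G := G)
  have : ∀ i, NeZero (p i ^ e i) := fun i => ⟨pow_ne_zero _ (hp i).ne_zero⟩
  have : Finite (DirectSum ι fun i => ZMod (p i ^ e i)) :=
    Finite.of_equiv (∀ i : ι, ZMod (p i ^ e i)) (DirectSum.addEquivProd _).toEquiv.symm
  exact str_aux ht h4 φ

end Pool.Agent.H94.MW
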