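import Mathlib

set_option autoImplicit false

/-!
# [H94 MW AB1] The absolute values of `F(t)`

`F` is finite with `q` elements.  For `v : HeightOneSpectrum F[X]` the ideal `v.asIdeal` is generated by an irreducible polynomial; `dgv v` is its degree (`Submodule.IsPrincipal.generator`).  `abv v x = (q ^ dgv v) ^ (- ord_v x)`, `abi x = q ^ (deg x)`.
* `dgv_pos`: the generator is irreducible (`Submodule.IsPrincipal.prime_generator_of_isPrime`), so of positive degree (`Irreducible.natDegree_pos`).
* `abi`: `RatFunc.intDegree_mul`, `RatFunc.intDegree_add_le` (`q ^ max a b ≤ q ^ a + q ^ b`).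
* `abv_inj`: if `v ≠ v'` then the generator `p` of `v` is not in `v'` (both ideals are maximal), so `abv v p < 1 = abv v' p` (`adicAbv_coe_lt_one_iff`, `adicAbv_coe_eq_one_iff`).
* `abv_poly_fin`: for a polynomial `f ≠ 0` only finitely many `v` have `f ∈ v.asIdeal` (e.g. `Ideal.finite_factors`, or `IsDedekindDomain.HeightOneSpectrum` with `finite_mulSupport`), for all others the value is `1`.
* `abv_poly`: both sides are multiplicative in `f ≠ 0` (`finprod_mul_distrib`, `natDegree_mul`); induction on `f` (`UniqueFactorizationMonoid.induction_on_prime` / `Polynomial` version): units: value `1`, degree `0`; a prime `p`: `abv v p = q ^ (- natDegree p)` for `v = (p)` (`ord_v p = 1`, `dgv v = natDegree p`), `1` for all other `v` (`finprod_eq_single`).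
-/

namespace Pool.Agent.H94.MW

open Polynomial IsDedekindDomain

variable {F : Type} [Field F] [Finite F]

/-- the degree of a prime of `F[X]` -/
noncomputable def dgv (v : HeightOneSpectrum F[X]) : ℕ :=
  (Submodule.IsPrincipal.generator v.asIdeal).natDegree

omit [Finite F] in
theorem dgv_pos (v : HeightOneSpectrum F[X]) : 0 < dgv v := by
  have h1 : Prime (Submodule.IsPrincipal.generator v.asIdeal) := by
    have := v.isPrime
    exact Submodule.IsPrincipal.prime_generator_of_isPrime v.asIdeal v.ne_bot
  exact h1.irreducible.natDegree_pos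

theorem one_lt_bsv (v : HeightOneSpectrum F[X]) : (1 : NNReal) < (Nat.card F : NNReal) ^ dgv v := by
  have h1 : 1 < Nat.card F := Finite.one_lt_card
  exact one_lt_pow₀ (by exact_mod_cast h1) (dgv_pos v).ne'

/-- the absolute value of a prime -/
noncomputable def abv (v : HeightOneSpectrum F[X]) : AbsoluteValue (RatFunc F) ℝ :=
  v.adicAbv (one_lt_bsv v)

private theorem ab1_q_gt (F : Type) [Field F] [Finite F] : (1 : ℝ) < (Nat.card F : ℝ) := by
  have h1 : 1 < Nat.card F := Finite.one_lt_card
  exact_mod_cast h1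

open Classical in
/-- the absolute value at infinity -/
noncomputable def abi (F : Type) [Field F] [Finite F] : AbsoluteValue (RatFunc F) ℝ where
  toFun x := if x = 0 then 0 else (Nat.card F : ℝ) ^ x.intDegree
  map_mul' := by
    intro x y
    by_cases hx : x = 0
    · simp [hx]
    by_cases hy : y = 0
    · simp [hy]
    have hq := ab1_q_gt F
    rw [if_neg hx, if_neg hy, if_neg (mul_ne_zero hx hy), RatFunc.intDegree_mul hx hy,
      zpow_add₀ (by linarith)]
  nonneg' := by
    intro x
    split_ifs
    · exact le_refl _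
    · positivity
  eq_zero' := by
    intro x
    have hq := ab1_q_gt F
    constructor
    · intro h
      by_contra hx
      rw [if_neg hx] at h
      have : (0 : ℝ) < (Nat.card F : ℝ) ^ x.intDegree := zpow_pos (by linarith) _
      linarith
    · intro h
      rw [if_pos h]
  add_le' := by
    intro x y
    have hq := ab1_q_gt F
    by_cases hxy : x + y = 0
    · rw [if_pos hxy]
      split_ifs <;> positivity
    by_cases hy : y = 0
    · simp [hy]
    by_cases hx : x = 0
    · simp [hx]
    rw [if_neg hxy, if_neg hx, if_neg hy]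
    have h1 := RatFunc.intDegree_add_le hy hxy
    have h2 : (Nat.card F : ℝ) ^ (x + y).intDegree ≤
        (Nat.card F : ℝ) ^ (max x.intDegree y.intDegree) := zpow_le_zpow_right₀ hq.le h1
    have h3 : (0 : ℝ) < (Nat.card F : ℝ) ^ x.intDegree := zpow_pos (by linarith) _
    have h4 : (0 : ℝ) < (Nat.card F : ℝ) ^ y.intDegree := zpow_pos (by linarith) _
    rcases le_total x.intDegree y.intDegree with h | h
    · rw [max_eq_right h] at h2
      linarith
    · rw [max_eq_left h] at h2
      linarith

theorem abi_apply {x : RatFunc F} (hx : x ≠ 0) : abi F x = (Nat.card F : ℝ) ^ x.intDegree :=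
  if_neg hx

theorem abv_inj : Function.Injective (abv (F := F)) := by
  intro v v' h
  by_contra hne
  have ⟨x, hx1, hx2⟩ : ∃ x : F[X], x ∈ v.asIdeal ∧ x ∉ v'.asIdeal := by
    by_contra! H
    exact hne <| HeightOneSpectrum.ext_iff.mpr <|
      Ideal.IsMaximal.eq_of_le v.isMaximal v'.isPrime.ne_top' H
  have h1 : abv v (algebraMap F[X] (RatFunc F) x) < 1 :=
    (v.adicAbv_coe_lt_one_iff (one_lt_bsv v) x).mpr hx1
  have h2 : abv v' (algebraMap F[X] (RatFunc F) x) = 1 :=
    (v'.adicAbv_coe_eq_one_iff (one_lt_bsv v') x).mpr hx2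
  rw [h, h2] at h1
  exact lt_irrefl _ h1

theorem abv_poly_fin {f : F[X]} (hf : f ≠ 0) :
    (Function.mulSupport fun v : HeightOneSpectrum F[X] =>
      abv v (algebraMap F[X] (RatFunc F) f)).Finite := by
  have h : {v : HeightOneSpectrum F[X] | v.asIdeal ∣ Ideal.span {f}}.Finite := by
    apply Ideal.finite_factors
    simpa using hf
  refine h.subset ?_
  intro v hv
  rw [Function.mem_mulSupport] at hv
  show v.asIdeal ∣ Ideal.span {f}
  rw [Ideal.dvd_span_singleton]
  by_contra hc
  exact hv ((v.adicAbv_coe_eq_one_iff (one_lt_bsv v) f).mpr hc)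

private theorem ab1_unit {f : F[X]} (hf : IsUnit f) (v : HeightOneSpectrum F[X]) :
    abv v (algebraMap F[X] (RatFunc F) f) = 1 := by
  refine (v.adicAbv_coe_eq_one_iff (one_lt_bsv v) f).mpr ?_
  intro h
  exact v.isPrime.ne_top (Ideal.eq_top_of_isUnit_mem _ h hf)

private theorem ab1_toNN {e : NNReal} (he : e ≠ 0) (n : ℤ) :
    WithZeroMulInt.toNNReal he (WithZero.exp n) = e ^ n := by
  rw [WithZeroMulInt.toNNReal_neg_apply he (by exact WithZero.exp_ne_zero)]
  rfl

private theorem ab1_prime {p : F[X]} (hp : Prime p) :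
    ∏ᶠ v : HeightOneSpectrum F[X], abv v (algebraMap F[X] (RatFunc F) p) =
      ((Nat.card F : ℝ) ^ p.natDegree)⁻¹ := by
  have hp0 : p ≠ 0 := hp.ne_zero
  have hpr : (Ideal.span {p}).IsPrime := (Ideal.span_singleton_prime hp0).mpr hp
  have hbot : Ideal.span {p} ≠ ⊥ := by
    rw [Ne, Ideal.span_singleton_eq_bot]
    exact hp0
  let v0 : HeightOneSpectrum F[X] := ⟨Ideal.span {p}, hpr, hbot⟩
  have h1 : ∀ v : HeightOneSpectrum F[X], v ≠ v0 → abv v (algebraMap F[X] (RatFunc F) p) = 1 := by
    intro v hv
    refine (v.adicAbv_coe_eq_one_iff (one_lt_bsv v) p).mpr ?_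
    intro h
    apply hv
    have hle : v0.asIdeal ≤ v.asIdeal := by
      show Ideal.span {p} ≤ v.asIdeal
      rw [Ideal.span_le]
      simpa using h
    exact (HeightOneSpectrum.ext_iff.mpr
      (Ideal.IsMaximal.eq_of_le v0.isMaximal v.isPrime.ne_top' hle)).symm
  rw [finprod_eq_single _ v0 h1]
  have hdg : dgv v0 = p.natDegree := by
    unfold dgv
    have hassoc : Associated (Submodule.IsPrincipal.generator v0.asIdeal) p := by
      show Associated (Submodule.IsPrincipal.generator (Ideal.span {p})) p
      rw [← Ideal.span_singleton_eq_span_singleton, Ideal.span_singleton_generator]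
    exact natDegree_eq_of_degree_eq (degree_eq_degree_of_associated hassoc)
  show v0.adicAbv (one_lt_bsv v0) (algebraMap F[X] (RatFunc F) p) = _
  rw [HeightOneSpectrum.adicAbv_of_algebraMap]
  show (((WithZeroMulInt.toNNReal (ne_zero_of_lt (one_lt_bsv v0)) (v0.intValuation p) : NNReal)) : ℝ) = _
  rw [HeightOneSpectrum.intValuation_singleton v0 hp0 rfl, ab1_toNN, hdg]
  push_cast
  rw [zpow_neg, zpow_one]

theorem abv_poly {f : F[X]} (hf : f ≠ 0) :
    ∏ᶠ v : HeightOneSpectrum F[X], abv v (algebraMap F[X] (RatFunc F) f) =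
      ((Nat.card F : ℝ) ^ f.natDegree)⁻¹ := by
  induction f using UniqueFactorizationMonoid.induction_on_prime with
  | h₁ => exact absurd rfl hf
  | h₂ x hx =>
    rw [finprod_eq_one_of_forall_eq_one (fun v => ab1_unit hx v), natDegree_eq_zero_of_isUnit hx]
    simp
  | h₃ a p ha hp ih =>
    have h1 : ∀ v : HeightOneSpectrum F[X], abv v (algebraMap F[X] (RatFunc F) (p * a)) =
        abv v (algebraMap F[X] (RatFunc F) p) * abv v (algebraMap F[X] (RatFunc F) a) := by
      intro v
      rw [map_mul, map_mul]
    rw [finprod_congr h1, finprod_mul_distrib (abv_poly_fin hp.ne_zero) (abv_poly_fin ha),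
      ab1_prime hp, ih ha, natDegree_mul hp.ne_zero ha, pow_add, mul_inv]

end Pool.Agent.H94.MW
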