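import Mathlib

set_option autoImplicit false

/-!
# [H94 MW DEFS] The curve `y² = (x - e 0) (x - e 1) (x - e 2)`

* `crv_disc`: `Δ = 16 (e 0 - e 1)² (e 0 - e 2)² (e 1 - e 2)²` (unfold all, `ring`).
* `crv_ell`: `Δ` is a unit (`isUnit_iff_ne_zero`), `16 = 2 ^ 4`.
* `eqn_iff`: `WeierstrassCurve.Affine.equation_iff`, `Fin.prod_univ_three`, `ring`.
-/

namespace Pool.Agent.H94.MW

variable {K : Type} [Field K]

/-- the curve `y² = (x - e 0) (x - e 1) (x - e 2)` -/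
def crv (e : Fin 3 → K) : WeierstrassCurve K :=
  ⟨0, -(e 0 + e 1 + e 2), 0, e 0 * e 1 + e 0 * e 2 + e 1 * e 2, -(e 0 * e 1 * e 2)⟩

theorem crv_disc (e : Fin 3 → K) :
    (crv e).Δ = 16 * ((e 0 - e 1) * (e 0 - e 2) * (e 1 - e 2)) ^ 2 := by
  unfold crv WeierstrassCurve.Δ WeierstrassCurve.b₂ WeierstrassCurve.b₄ WeierstrassCurve.b₆
    WeierstrassCurve.b₈
  ring

theorem crv_ell (h2 : (2 : K) ≠ 0) {e : Fin 3 → K} (he : Function.Injective e) :
    (crv e).IsElliptic := by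
  constructor
  rw [isUnit_iff_ne_zero, crv_disc]
  have h01 : e 0 - e 1 ≠ 0 := sub_ne_zero.2 (he.ne (by decide))
  have h02 : e 0 - e 2 ≠ 0 := sub_ne_zero.2 (he.ne (by decide))
  have h12 : e 1 - e 2 ≠ 0 := sub_ne_zero.2 (he.ne (by decide))
  have h16 : (16 : K) ≠ 0 := by
    rw [show (16 : K) = 2 ^ 4 by norm_num]
    exact pow_ne_zero 4 h2
  exact mul_ne_zero h16 (pow_ne_zero 2 (mul_ne_zero (mul_ne_zero h01 h02) h12))

theorem eqn_iff (e : Fin 3 → K) (x y : K) :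
    (crv e).toAffine.Equation x y ↔ y ^ 2 = ∏ i, (x - e i) := by
  rw [WeierstrassCurve.Affine.equation_iff, Fin.prod_univ_three]
  show y ^ 2 + 0 * x * y + 0 * y = x ^ 3 + -(e 0 + e 1 + e 2) * x ^ 2 +
    (e 0 * e 1 + e 0 * e 2 + e 1 * e 2) * x + -(e 0 * e 1 * e 2) ↔ _
  constructor
  · intro h
    linear_combination h
  · intro h
    linear_combination h

theorem nonsing_iff (h2 : (2 : K) ≠ 0) {e : Fin 3 → K} (he : Function.Injective e) (x y : K) :
    (crv e).toAffine.Nonsingular x y ↔ y ^ 2 = ∏ i, (x - e i) := by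
  have := crv_ell h2 he
  rw [← eqn_iff]
  exact (WeierstrassCurve.Affine.equation_iff_nonsingular (W := (crv e).toAffine)).symm

end Pool.Agent.H94.MW
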