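import Mathlib

/-!
# [H94 MW ODR] The denominator of `x(2P)`

`A`, `B` polynomials, `A B (A - B)` squarefree, `A` not constant; `x ∈ F(t)` such that `x`, `x - A`, `x - B` are squares and not zero.  Write `x = u / v`, `u = num x`, `v = denom x` (monic, coprime).
`(x² - A B)² / (4 x (x - A) (x - B)) = (u² - A B v²)² / (4 u v (u - A v) (u - B v))`.
Claim: `N = u² - A B v²` is coprime to `M = u v (u - A v) (u - B v)`.  Let `π` be irreducible with `π ∣ N`, `π ∣ M`.
* `π ∣ v`: then `π ∣ u²`, against `u`, `v` coprime.  So `π ∤ v`; as `x`, `x - A`, `x - B` are squares the multiplicities of `π` in `u`, `u - A v`, `u - B v` are even: (E) if `π` divides one of them then `π²` does.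
  (E): `u / v = s²`, `s = a / b` in lowest terms: `u b² = a² v`; `π ∤ v`: if `π ∣ u` then `π ∣ a`, so `π ∤ b` and `π² ∣ u b²`, so `π² ∣ u`.  The same for `u - A v`, `u - B v` (`x - A = (u - A v) / v`).
* `π ∣ u`: `π ∣ A B v²`, so `π ∣ A` or `π ∣ B`.  If `π ∣ A`: `π² ∣ u`, `π ∣ u - A v`, so `π² ∣ u - A v`, so `π² ∣ A v`, `π² ∣ A`, against squarefree.  The same for `B`.
* `π ∣ u - A v`: `N ≡ A² v² - A B v² = A (A - B) v²`, so `π ∣ A` (then `π ∣ u`, see above) or `π ∣ A - B`: `u - B v = (u - A v) + (A - B) v`, so `π ∣ u - B v`, `π² ∣ u - A v`, `π² ∣ u - B v`, `π² ∣ (A - B) v`, contradiction.  The same for `π ∣ u - B v`.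
So the denominator of the fraction is `M` up to a constant (`RatFunc.denom` of a quotient of coprime polynomials: `RatFunc.denom_div`, `gcd = 1`), of degree `deg u + deg v + deg (u - A v) + deg (u - B v) > deg v` (all factors are `≠ 0`): else `u` and `u - A v` are constant, so `A v` is constant, `A` is constant.
(`N² ` and `M` coprime; `4 ≠ 0`.)
-/

set_option autoImplicit false

namespace Pool.Agent.H94.MW

open Polynomial

variable {F : Type} [Field F]

private theorem odr_cop {π b : F[X]} (hπ : Prime π) (hb : ¬ π ∣ b) : IsCoprime π b :=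
  (hπ.irreducible.coprime_iff_not_dvd).2 hb

/-- even multiplicity -/
private theorem odr_even {u v π : F[X]} (hv : v ≠ 0) (hπ : Prime π) (hπv : ¬ π ∣ v)
    (hs : IsSquare (algebraMap F[X] (RatFunc F) u / algebraMap F[X] (RatFunc F) v))
    (hu : π ∣ u) : π ^ 2 ∣ u := by
  obtain ⟨s, hs⟩ := hs
  obtain ⟨a, ha⟩ : ∃ a, a = RatFunc.num s := ⟨_, rfl⟩
  obtain ⟨b, hb⟩ : ∃ b, b = RatFunc.denom s := ⟨_, rfl⟩
  have hsab : s = algebraMap F[X] (RatFunc F) a / algebraMap F[X] (RatFunc F) b := by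
    rw [ha, hb, RatFunc.num_div_denom]
  have hb0 : b ≠ 0 := by rw [hb]; exact RatFunc.denom_ne_zero s
  have hab : IsCoprime a b := by rw [ha, hb]; exact RatFunc.isCoprime_num_denom s
  have hv' : algebraMap F[X] (RatFunc F) v ≠ 0 := RatFunc.algebraMap_ne_zero hv
  have hb' : algebraMap F[X] (RatFunc F) b ≠ 0 := RatFunc.algebraMap_ne_zero hb0
  have h1 : u * b ^ 2 = a ^ 2 * v := by
    apply RatFunc.algebraMap_injective F
    rw [map_mul, map_mul, map_pow, map_pow]
    rw [hsab] at hs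
    field_simp at hs
    linear_combination hs
  have h2 : π ∣ a := by
    have h3 : π ∣ a ^ 2 * v := by
      rw [← h1]
      exact dvd_mul_of_dvd_left hu _
    rcases hπ.dvd_or_dvd h3 with h4 | h4
    · exact hπ.dvd_of_dvd_pow h4
    · exact absurd h4 hπv
  have h3 : ¬ π ∣ b := by
    intro h4
    exact hπ.not_isUnit (hab.isUnit_of_dvd' h2 h4)
  have h4 : π ^ 2 ∣ u * b ^ 2 := by
    rw [h1]
    exact dvd_mul_of_dvd_left (pow_dvd_pow_of_dvd h2 2) _
  exact (((odr_cop hπ h3).pow (m := 2) (n := 2)).dvd_of_dvd_mul_right h4)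

private theorem odr_sq {π a v : F[X]} (hπ : Prime π) (hv : ¬ π ∣ v) (h : π ^ 2 ∣ a * v) :
    π ^ 2 ∣ a :=
  ((odr_cop hπ hv).pow_left (m := 2)).dvd_of_dvd_mul_right h

theorem odr (h2 : (2 : F) ≠ 0) {A B : F[X]} (hs : Squarefree (A * B * (A - B)))
    (hA : A.natDegree ≠ 0) {x : RatFunc F} (h0 : x ≠ 0)
    (h1 : x - algebraMap F[X] (RatFunc F) A ≠ 0) (h3 : x - algebraMap F[X] (RatFunc F) B ≠ 0)
    (s0 : IsSquare x) (s1 : IsSquare (x - algebraMap F[X] (RatFunc F) A))
    (s3 : IsSquare (x - algebraMap F[X] (RatFunc F) B)) :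
    (RatFunc.denom x).natDegree < (RatFunc.denom
      ((x ^ 2 - algebraMap F[X] (RatFunc F) A * algebraMap F[X] (RatFunc F) B) ^ 2 /
        (4 * (x * (x - algebraMap F[X] (RatFunc F) A) *
          (x - algebraMap F[X] (RatFunc F) B))))).natDegree := by
  obtain ⟨u, hu⟩ : ∃ u, u = RatFunc.num x := ⟨_, rfl⟩
  obtain ⟨v, hv⟩ : ∃ v, v = RatFunc.denom x := ⟨_, rfl⟩
  have hxuv : x = algebraMap F[X] (RatFunc F) u / algebraMap F[X] (RatFunc F) v := by
    rw [hu, hv, RatFunc.num_div_denom]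
  have hv0 : v ≠ 0 := by rw [hv]; exact RatFunc.denom_ne_zero x
  have huv : IsCoprime u v := by rw [hu, hv]; exact RatFunc.isCoprime_num_denom x
  rw [← hv]
  have hv' : algebraMap F[X] (RatFunc F) v ≠ 0 := RatFunc.algebraMap_ne_zero hv0
  have hxA : x - algebraMap F[X] (RatFunc F) A =
      algebraMap F[X] (RatFunc F) (u - A * v) / algebraMap F[X] (RatFunc F) v := by
    rw [hxuv, map_sub, map_mul]
    field_simp
  have hxB : x - algebraMap F[X] (RatFunc F) B =
      algebraMap F[X] (RatFunc F) (u - B * v) / algebraMap F[X] (RatFunc F) v := by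
    rw [hxuv, map_sub, map_mul]
    field_simp
  have hu0 : u ≠ 0 := by
    intro h
    apply h0
    rw [hxuv, h, map_zero, zero_div]
  have huA : u - A * v ≠ 0 := by
    intro h
    apply h1
    rw [hxA, h, map_zero, zero_div]
  have huB : u - B * v ≠ 0 := by
    intro h
    apply h3
    rw [hxB, h, map_zero, zero_div]
  have h4 : (4 : F) ≠ 0 := by
    have h5 : (4 : F) = 2 * 2 := by norm_num
    rw [h5]
    exact mul_ne_zero h2 h2
  have h4C : (4 : F[X]) = C 4 := by
    rw [map_ofNat]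
  have h4u : IsUnit (4 : F[X]) := by
    rw [h4C, isUnit_C, isUnit_iff_ne_zero]
    exact h4
  obtain ⟨M, hM⟩ : ∃ M, M = u * v * (u - A * v) * (u - B * v) := ⟨_, rfl⟩
  obtain ⟨N, hN⟩ : ∃ N, N = u ^ 2 - A * B * v ^ 2 := ⟨_, rfl⟩
  have hM0 : M ≠ 0 := by
    rw [hM]
    exact mul_ne_zero (mul_ne_zero (mul_ne_zero hu0 hv0) huA) huB
  -- the multiplicities
  have e0 : ∀ π : F[X], Prime π → ¬ π ∣ v → π ∣ u → π ^ 2 ∣ u := by
    intro π hπ hπv hπu
    rw [hxuv] at s0
    exact odr_even hv0 hπ hπv s0 hπu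
  have eA : ∀ π : F[X], Prime π → ¬ π ∣ v → π ∣ u - A * v → π ^ 2 ∣ u - A * v := by
    intro π hπ hπv hπu
    rw [hxA] at s1
    exact odr_even hv0 hπ hπv s1 hπu
  have eB : ∀ π : F[X], Prime π → ¬ π ∣ v → π ∣ u - B * v → π ^ 2 ∣ u - B * v := by
    intro π hπ hπv hπu
    rw [hxB] at s3
    exact odr_even hv0 hπ hπv s3 hπu
  have sA : ∀ π : F[X], Prime π → ¬ π ^ 2 ∣ A := by
    intro π hπ h
    apply hπ.not_isUnit
    apply hs
    rw [← sq]
    exact dvd_mul_of_dvd_left (dvd_mul_of_dvd_left h _) _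
  have sB : ∀ π : F[X], Prime π → ¬ π ^ 2 ∣ B := by
    intro π hπ h
    apply hπ.not_isUnit
    apply hs
    rw [← sq]
    exact dvd_mul_of_dvd_left (dvd_mul_of_dvd_right h _) _
  have sAB : ∀ π : F[X], Prime π → ¬ π ^ 2 ∣ A - B := by
    intro π hπ h
    apply hπ.not_isUnit
    apply hs
    rw [← sq]
    exact dvd_mul_of_dvd_right h _
  -- `π` divides `u` and `A` or `B`
  have cA : ∀ π : F[X], Prime π → ¬ π ∣ v → π ∣ u → π ∣ A → False := by
    intro π hπ hπv hπu hπA
    have f1 := e0 π hπ hπv hπu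
    have f2 := eA π hπ hπv (dvd_sub hπu (dvd_mul_of_dvd_left hπA _))
    have f3 : π ^ 2 ∣ A * v := by
      have := dvd_sub f1 f2
      rwa [sub_sub_cancel] at this
    exact sA π hπ (odr_sq hπ hπv f3)
  have cB : ∀ π : F[X], Prime π → ¬ π ∣ v → π ∣ u → π ∣ B → False := by
    intro π hπ hπv hπu hπB
    have f1 := e0 π hπ hπv hπu
    have f2 := eB π hπ hπv (dvd_sub hπu (dvd_mul_of_dvd_left hπB _))
    have f3 : π ^ 2 ∣ B * v := by
      have := dvd_sub f1 f2
      rwa [sub_sub_cancel] at this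
    exact sB π hπ (odr_sq hπ hπv f3)
  have cAB : ∀ π : F[X], Prime π → ¬ π ∣ v → π ∣ u - A * v → π ∣ u - B * v → False := by
    intro π hπ hπv hπA hπB
    have f1 := eA π hπ hπv hπA
    have f2 := eB π hπ hπv hπB
    have f3 : π ^ 2 ∣ (A - B) * v := by
      have h5 := dvd_sub f2 f1
      have h6 : u - B * v - (u - A * v) = (A - B) * v := by ring
      rwa [h6] at h5
    exact sAB π hπ (odr_sq hπ hπv f3)
  have hcop1 : ∀ π : F[X], Prime π → π ∣ N → ¬ π ∣ M := by
    intro π hπ hπN hπM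
    have hπv : ¬ π ∣ v := by
      intro h
      have f1 : π ∣ u ^ 2 := by
        have h5 : u ^ 2 = N + A * B * v * v := by rw [hN]; ring
        rw [h5]
        exact dvd_add hπN (dvd_mul_of_dvd_right h _)
      exact hπ.not_isUnit (huv.isUnit_of_dvd' (hπ.dvd_of_dvd_pow f1) h)
    have hv2 : ∀ a : F[X], π ∣ a * v ^ 2 → π ∣ a := by
      intro a ha
      rcases hπ.dvd_or_dvd ha with h5 | h5
      · exact h5
      · exact absurd (hπ.dvd_of_dvd_pow h5) hπv
    rw [hM] at hπM
    rcases hπ.dvd_or_dvd hπM with h5 | h5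
    · rcases hπ.dvd_or_dvd h5 with h6 | h6
      · rcases hπ.dvd_or_dvd h6 with h7 | h7
        · -- `π ∣ u`
          have f1 : π ∣ A * B * v ^ 2 := by
            have h8 : A * B * v ^ 2 = u * u - N := by rw [hN]; ring
            rw [h8]
            exact dvd_sub (dvd_mul_of_dvd_left h7 _) hπN
          rcases hπ.dvd_or_dvd (hv2 _ f1) with h8 | h8
          · exact cA π hπ hπv h7 h8
          · exact cB π hπ hπv h7 h8
        · exact hπv h7
      · -- `π ∣ u - A v`
        have f1 : π ∣ A * (A - B) * v ^ 2 := by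
          have h8 : A * (A - B) * v ^ 2 = N - (u - A * v) * (u + A * v) := by rw [hN]; ring
          rw [h8]
          exact dvd_sub hπN (dvd_mul_of_dvd_left h6 _)
        rcases hπ.dvd_or_dvd (hv2 _ f1) with h8 | h8
        · refine cA π hπ hπv ?_ h8
          have h9 : u = (u - A * v) + A * v := by ring
          rw [h9]
          exact dvd_add h6 (dvd_mul_of_dvd_left h8 _)
        · refine cAB π hπ hπv h6 ?_
          have h9 : u - B * v = (u - A * v) + (A - B) * v := by ring
          rw [h9]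
          exact dvd_add h6 (dvd_mul_of_dvd_left h8 _)
    · -- `π ∣ u - B v`
      have f1 : π ∣ B * (A - B) * v ^ 2 := by
        have h8 : B * (A - B) * v ^ 2 = (u - B * v) * (u + B * v) - N := by rw [hN]; ring
        rw [h8]
        exact dvd_sub (dvd_mul_of_dvd_left h5 _) hπN
      rcases hπ.dvd_or_dvd (hv2 _ f1) with h8 | h8
      · refine cB π hπ hπv ?_ h8
        have h9 : u = (u - B * v) + B * v := by ring
        rw [h9]
        exact dvd_add h5 (dvd_mul_of_dvd_left h8 _)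
      · refine cAB π hπ hπv ?_ h5
        have h9 : u - A * v = (u - B * v) - (A - B) * v := by ring
        rw [h9]
        exact dvd_sub h5 (dvd_mul_of_dvd_left h8 _)
  have hcop : IsCoprime (N ^ 2) (4 * M) := by
    refine isCoprime_of_prime_dvd (fun h => ?_) (fun π hπ h5 h6 => ?_)
    · exact mul_ne_zero h4u.ne_zero hM0 h.2
    · rcases hπ.dvd_or_dvd h6 with h7 | h7
      · exact hπ.not_isUnit (isUnit_of_dvd_unit h7 h4u)
      · exact hcop1 π hπ (hπ.dvd_of_dvd_pow h5) h7
  -- the fraction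
  obtain ⟨y, hy⟩ : ∃ y, y = (x ^ 2 - algebraMap F[X] (RatFunc F) A *
    algebraMap F[X] (RatFunc F) B) ^ 2 / (4 * (x * (x - algebraMap F[X] (RatFunc F) A) *
          (x - algebraMap F[X] (RatFunc F) B))) := ⟨_, rfl⟩
  rw [← hy]
  have hy2 : y = algebraMap F[X] (RatFunc F) (N ^ 2) / algebraMap F[X] (RatFunc F) (4 * M) := by
    have hu' : algebraMap F[X] (RatFunc F) u ≠ 0 := RatFunc.algebraMap_ne_zero hu0
    have huA' : algebraMap F[X] (RatFunc F) (u - A * v) ≠ 0 := RatFunc.algebraMap_ne_zero huA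
    have huB' : algebraMap F[X] (RatFunc F) (u - B * v) ≠ 0 := RatFunc.algebraMap_ne_zero huB
    have h4' : algebraMap F[X] (RatFunc F) 4 ≠ 0 := RatFunc.algebraMap_ne_zero h4u.ne_zero
    have h4'' : (4 : RatFunc F) = algebraMap F[X] (RatFunc F) 4 := by rw [map_ofNat]
    rw [hy, hxA, hxB, hxuv, hN, hM, h4'']
    simp only [map_mul, map_pow, map_sub] at hu' huA' huB' h4' ⊢
    field_simp
  have h4M0 : 4 * M ≠ 0 := mul_ne_zero h4u.ne_zero hM0
  have hdvd : 4 * M ∣ RatFunc.denom y := by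
    have hd0 : algebraMap F[X] (RatFunc F) (RatFunc.denom y) ≠ 0 :=
      RatFunc.algebraMap_ne_zero (RatFunc.denom_ne_zero y)
    have hM' : algebraMap F[X] (RatFunc F) (4 * M) ≠ 0 := RatFunc.algebraMap_ne_zero h4M0
    have h5 : N ^ 2 * RatFunc.denom y = RatFunc.num y * (4 * M) := by
      apply RatFunc.algebraMap_injective F
      have h6 := RatFunc.num_div_denom y
      rw [hy2] at h6
      rw [div_eq_div_iff (by rw [← hy2]; exact hd0) hM'] at h6
      rw [map_mul (algebraMap F[X] (RatFunc F)) (N ^ 2),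
        map_mul (algebraMap F[X] (RatFunc F)) (RatFunc.num y), hy2]
      exact h6.symm
    have h6 : 4 * M ∣ N ^ 2 * RatFunc.denom y := by
      rw [h5]
      exact dvd_mul_left _ _
    exact hcop.symm.dvd_of_dvd_mul_left h6
  have hle := natDegree_le_of_dvd hdvd (RatFunc.denom_ne_zero y)
  refine lt_of_lt_of_le ?_ hle
  have hdeg : (4 * M).natDegree = u.natDegree + v.natDegree + (u - A * v).natDegree +
      (u - B * v).natDegree := by
    rw [h4C, natDegree_C_mul h4, hM, natDegree_mul (mul_ne_zero (mul_ne_zero hu0 hv0) huA) huB,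
      natDegree_mul (mul_ne_zero hu0 hv0) huA, natDegree_mul hu0 hv0]
  rw [hdeg]
  by_contra hcon
  have f1 : u.natDegree = 0 := by omega
  have f2 : (u - A * v).natDegree = 0 := by omega
  have hA0 : A ≠ 0 := by
    intro h
    apply hA
    rw [h, natDegree_zero]
  have f3 : (A * v).natDegree ≤ 0 := by
    have h5 : A * v = u - (u - A * v) := by ring
    rw [h5]
    refine (natDegree_sub_le _ _).trans ?_
    rw [f1, f2, max_self]
  rw [natDegree_mul hA0 hv0] at f3
  omega

end Pool.Agent.H94.MW
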