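import Pool.Agent.H94.MW.Defs

set_option autoImplicit false

/-!
# [H94 MW PAR] The sum and the difference of two points

`W = crv e`: `a₁ = a₃ = 0`, `y² = x³ + a₂ x² + a₄ x + a₆`, `b₂ = 4 a₂`, `b₄ = 2 a₄`, `b₆ = 4 a₆`, `b₈ = 4 a₂ a₆ - a₄²`.  `addSubMap W` at `(s, t, u)` is `(s² - b₄ s u - b₆ t u - b₈ u², 2 s t + b₂ s u + b₄ t u + b₆ u², t² - 4 s u)`; `sym2x P Q = (x x', x + x', 1)`, `sym2x 0 Q = (x', 1, 0)`, `sym2x 0 0 = (1, 0, 0)` (`AddSubMap.lean` of Mathlib).
Cases (`P` or `Q` zero: `P + Q`, `P - Q` are `± P` or `± Q`; `τ = 1`):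
* `P = 0`, `Q = 0`: `(1, 0, 0) ↦ (1, 0, 0)`; `P = 0`, `Q = (x, y)`: `(x, 1, 0) ↦ (x², 2 x, 1) = sym2x Q (-Q)`; the same for `Q = 0`.
* `P = (x, y)`, `Q = ± P`, `y ≠ 0`: `(x², 2 x, 1) ↦ (x⁴ - b₄ x² - 2 b₆ x - b₈, 4 x³ + b₂ x² + 2 b₄ x + b₆, 0) = 4 y² (x(2P), 1, 0)`: `x(2P) = λ² - a₂ - 2 x`, `λ = (3 x² + 2 a₂ x + a₄) / (2 y)` (`add_self_of_Y_ne`, `slope_of_Y_ne`, `addX`), `τ = 4 y² ≠ 0`; `Q = P`: `P + Q = 2P`, `P - Q = 0`; `Q = -P` the other way round (`sym2x_comm`).
* `P = (x, 0)`, `Q = ± P = P`: `2P = 0`: both are `0`, `sym2x 0 0 = (1, 0, 0)`, `τ = x⁴ - b₄ x² - 2 b₆ x - b₈ ≠ 0`: it is not zero since not all coordinates of the image are zero (`addSubMap_ne_zero`), the second is `4 y² = 0`.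
* `x ≠ x'`: `λ = (y - y') / (x - x')`, `μ = (y + y') / (x - x')`, `x(P + Q) = λ² - a₂ - x - x'`, `x(P - Q) = μ² - a₂ - x - x'` (`add_of_X_ne`, `slope_of_X_ne`, `-Q = (x', -y')`), `τ = (x - x')²`: three identities, `field_simp`, `linear_combination` with the two equations of the curve (multiples: use `ring_nf`/polyrith-like elimination of `y²`, `y'²`).
-/

namespace Pool.Agent.H94.MW

open WeierstrassCurve

variable {K : Type} [Field K] [DecidableEq K]

omit [DecidableEq K] in
private theorem eval_asm (e : Fin 3 → K) (s t u : K) :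
    (fun i => ((crv e).addSubMap i).eval ![s, t, u]) =
      ![s ^ 2 - (crv e).b₄ * s * u - (crv e).b₆ * t * u - (crv e).b₈ * u ^ 2,
        2 * t * s + (crv e).b₂ * s * u + (crv e).b₄ * t * u + (crv e).b₆ * u ^ 2,
        t ^ 2 - 4 * s * u] := by
  funext i
  fin_cases i <;> simp [WeierstrassCurve.addSubMap]

omit [DecidableEq K] in
private theorem bs (e : Fin 3 → K) : (crv e).b₂ = 4 * (crv e).a₂ ∧ (crv e).b₄ = 2 * (crv e).a₄ ∧
    (crv e).b₆ = 4 * (crv e).a₆ ∧
    (crv e).b₈ = 4 * (crv e).a₂ * (crv e).a₆ - (crv e).a₄ ^ 2 := by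
  have h1 : (crv e).a₁ = 0 := rfl
  have h3 : (crv e).a₃ = 0 := rfl
  refine ⟨?_, ?_, ?_, ?_⟩
  · rw [WeierstrassCurve.b₂, h1]; ring
  · rw [WeierstrassCurve.b₄, h1]; ring
  · rw [WeierstrassCurve.b₆, h3]; ring
  · rw [WeierstrassCurve.b₈, h1, h3]; ring

omit [DecidableEq K] in
private theorem ceq {e : Fin 3 → K} {x y : K} (h : (crv e).toAffine.Nonsingular x y) :
    y ^ 2 = x ^ 3 + (crv e).a₂ * x ^ 2 + (crv e).a₄ * x + (crv e).a₆ := by
  have h1 := ((crv e).toAffine.equation_iff x y).1 h.1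
  have h2 : (crv e).a₁ = 0 := rfl
  have h3 : (crv e).a₃ = 0 := rfl
  rw [h2, h3] at h1
  linear_combination h1

omit [DecidableEq K] in
private theorem par_ring {x x' y y' a b c l m : K} (hD : x - x' ≠ 0)
    (h1 : y ^ 2 = x ^ 3 + a * x ^ 2 + b * x + c) (h2 : y' ^ 2 = x' ^ 3 + a * x' ^ 2 + b * x' + c)
    (hl : l * (x - x') = y - y') (hm : m * (x - x') = y + y') :
    (x * x') ^ 2 - 2 * b * (x * x') - 4 * c * (x + x') - (4 * a * c - b ^ 2) =
      (x - x') ^ 2 * ((l ^ 2 - a - x - x') * (m ^ 2 - a - x - x')) ∧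
    2 * (x + x') * (x * x') + 4 * a * (x * x') + 2 * b * (x + x') + 4 * c =
      (x - x') ^ 2 * ((l ^ 2 - a - x - x') + (m ^ 2 - a - x - x')) := by
  have hlm : l * m * (x - x') = x ^ 2 + x * x' + x' ^ 2 + a * (x + x') + b := by
    apply mul_left_cancel₀ hD
    linear_combination (m * (x - x')) * hl + (y - y') * hm + h1 - h2
  constructor
  · linear_combination (-(l * m * (x - x') + (x ^ 2 + x * x' + x' ^ 2 + a * (x + x') + b))) * hlm +
      ((a + x + x') * (l * (x - x') + (y - y'))) * hl +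
      ((a + x + x') * (m * (x - x') + (y + y'))) * hm + (2 * (a + x + x')) * h1 +
      (2 * (a + x + x')) * h2
  · linear_combination (-2) * h1 - 2 * h2 - (l * (x - x') + (y - y')) * hl -
      (m * (x - x') + (y + y')) * hm

omit [DecidableEq K] in
private theorem dbl_ring {x y a b c l : K} (h1 : y ^ 2 = x ^ 3 + a * x ^ 2 + b * x + c)
    (hl : l * (2 * y) = 3 * x ^ 2 + 2 * a * x + b) :
    (x * x) ^ 2 - 2 * b * (x * x) - 4 * c * (x + x) - (4 * a * c - b ^ 2) =
      4 * y ^ 2 * (l ^ 2 - a - x - x) ∧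
    2 * (x + x) * (x * x) + 4 * a * (x * x) + 2 * b * (x + x) + 4 * c = 4 * y ^ 2 := by
  constructor
  · linear_combination (-(l * (2 * y) + (3 * x ^ 2 + 2 * a * x + b))) * hl +
      (4 * (a + 2 * x)) * h1
  · linear_combination (-4) * h1

/-- the image of the pair `(x, x)` is the pair `(2 P, 0)` -/
private theorem par_dbl (h2 : (2 : K) ≠ 0) {e : Fin 3 → K} {x y : K}
    (h : (crv e).toAffine.Nonsingular x y) :
    ∃ τ : K, τ ≠ 0 ∧ (fun i => ((crv e).addSubMap i).eval ![x * x, x + x, 1]) =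
      τ • ((Affine.Point.some x y h : (crv e).toAffine.Point) + .some x y h).sym2x 0 := by
  obtain ⟨b2, b4, b6, b8⟩ := bs e
  have hc := ceq h
  have ha1 : (crv e).toAffine.a₁ = 0 := rfl
  have ha3 : (crv e).toAffine.a₃ = 0 := rfl
  have hneg : (crv e).toAffine.negY x y = -y := by
    rw [WeierstrassCurve.Affine.negY, ha1, ha3]; ring
  by_cases hy : y = 0
  · have h0 : (Affine.Point.some x y h : (crv e).toAffine.Point) + .some x y h = 0 :=
      Affine.Point.add_self_of_Y_eq (by rw [hneg, hy, neg_zero])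
    have hf : (3 * x ^ 2 + 2 * (crv e).a₂ * x + (crv e).a₄) ≠ 0 := by
      have h3 := (((crv e).toAffine.nonsingular_iff x y).1 h).2
      rw [ha1, ha3, hy] at h3
      rcases h3 with h3 | h3
      · intro h4
        apply h3
        rw [zero_mul]
        exact h4.symm
      · exact absurd (by ring) h3
    refine ⟨(3 * x ^ 2 + 2 * (crv e).a₂ * x + (crv e).a₄) ^ 2, pow_ne_zero 2 hf, ?_⟩
    rw [h0, eval_asm, Affine.Point.sym2x_zero_zero, b2, b4, b6, b8]
    rw [hy] at hc
    funext i
    fin_cases i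
    · simp only [Fin.zero_eta, Matrix.cons_val_zero, Pi.smul_apply, smul_eq_mul]
      linear_combination (4 * ((crv e).a₂ + 2 * x)) * hc
    · simp only [Fin.mk_one, Matrix.cons_val_one, Matrix.cons_val_zero, Pi.smul_apply, smul_eq_mul]
      linear_combination (-4) * hc
    · simp only [Fin.reduceFinMk, Matrix.cons_val, Pi.smul_apply, smul_eq_mul]
      ring
  · have hne : y ≠ (crv e).toAffine.negY x y := by
      rw [hneg]
      intro h3
      have h4 : 2 * y = 0 := by linear_combination h3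
      rcases mul_eq_zero.1 h4 with h5 | h5
      · exact h2 h5
      · exact hy h5
    obtain ⟨l, hldef⟩ : ∃ l, l = (crv e).toAffine.slope x x y y := ⟨_, rfl⟩
    have hl : l * (2 * y) = 3 * x ^ 2 + 2 * (crv e).a₂ * x + (crv e).a₄ := by
      rw [hldef, WeierstrassCurve.Affine.slope_of_Y_ne rfl hne, hneg, ha1]
      have h3 : y - -y ≠ 0 := by
        rw [sub_neg_eq_add, ← two_mul]
        exact mul_ne_zero h2 hy
      have h4 : 2 * y = y - -y := by ring
      rw [h4, div_mul_cancel₀ _ h3]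
      ring
    obtain ⟨r1, r2⟩ := dbl_ring hc hl
    have hsum := Affine.Point.add_self_of_Y_ne (h₁ := h) hne
    have hX : (crv e).toAffine.addX x x l = l ^ 2 - (crv e).a₂ - x - x := by
      rw [WeierstrassCurve.Affine.addX, ha1]; ring
    refine ⟨4 * y ^ 2, ?_, ?_⟩
    · rw [show (4 : K) = 2 ^ 2 by norm_num]
      exact mul_ne_zero (pow_ne_zero 2 h2) (pow_ne_zero 2 hy)
    rw [hsum, eval_asm, Affine.Point.sym2x_some_zero, ← hldef, hX, b2, b4, b6, b8]
    funext i
    fin_cases i
    · simp only [Fin.zero_eta, Matrix.cons_val_zero, Pi.smul_apply, smul_eq_mul]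
      linear_combination r1
    · simp only [Fin.mk_one, Matrix.cons_val_one, Matrix.cons_val_zero, Pi.smul_apply, smul_eq_mul]
      linear_combination r2
    · simp only [Fin.reduceFinMk, Matrix.cons_val, Pi.smul_apply, smul_eq_mul]
      ring

theorem par (h2 : (2 : K) ≠ 0) {e : Fin 3 → K} (he : Function.Injective e)
    (P Q : (crv e).toAffine.Point) :
    ∃ τ : K, τ ≠ 0 ∧ (fun i => ((crv e).addSubMap i).eval (P.sym2x Q)) =
      τ • (P + Q).sym2x (P - Q) := by
  obtain ⟨b2, b4, b6, b8⟩ := bs e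
  rcases P with _ | ⟨x, y, h⟩
  · rcases Q with _ | ⟨x', y', h'⟩
    · refine ⟨1, one_ne_zero, ?_⟩
      rw [← Affine.Point.zero_def, add_zero, sub_zero, Affine.Point.sym2x_zero_zero, eval_asm,
        one_smul]
      funext i
      fin_cases i <;> simp
    · refine ⟨1, one_ne_zero, ?_⟩
      rw [← Affine.Point.zero_def, zero_add, zero_sub, Affine.Point.sym2x_zero_some, eval_asm,
        one_smul, Affine.Point.sym2x_neg_right, Affine.Point.sym2x_some_some]
      funext i
      fin_cases i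
      · simp only [Fin.zero_eta, Matrix.cons_val_zero]
        ring
      · simp only [Fin.mk_one, Matrix.cons_val_one, Matrix.cons_val_zero]
        ring
      · simp only [Fin.reduceFinMk, Matrix.cons_val]
        ring
  · rcases Q with _ | ⟨x', y', h'⟩
    · refine ⟨1, one_ne_zero, ?_⟩
      rw [← Affine.Point.zero_def, add_zero, sub_zero, Affine.Point.sym2x_some_zero, eval_asm,
        one_smul, Affine.Point.sym2x_some_some]
      funext i
      fin_cases i
      · simp only [Fin.zero_eta, Matrix.cons_val_zero]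
        ring
      · simp only [Fin.mk_one, Matrix.cons_val_one, Matrix.cons_val_zero]
        ring
      · simp only [Fin.reduceFinMk, Matrix.cons_val]
        ring
    · by_cases hx : x = x'
      · have hPQ := Affine.Point.X_eq_iff (h₁ := h) (h₂ := h').1 hx
        obtain ⟨τ, hτ, hd⟩ := par_dbl h2 h
        refine ⟨τ, hτ, ?_⟩
        have hv : (![x * x', x + x', 1] : Fin 3 → K) = ![x * x, x + x, 1] := by rw [hx]
        rw [Affine.Point.sym2x_some_some, hv, hd]
        rcases hPQ with h3 | h3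
        · rw [← h3, sub_self]
        · have h4 : (Affine.Point.some x' y' h' : (crv e).toAffine.Point) = -.some x y h := by
            rw [h3, neg_neg]
          rw [h4, add_neg_cancel, sub_neg_eq_add, Affine.Point.sym2x_comm]
      · have hD : x - x' ≠ 0 := sub_ne_zero.2 hx
        have hc := ceq h
        have hc' := ceq h'
        have ha1 : (crv e).toAffine.a₁ = 0 := rfl
        have ha3 : (crv e).toAffine.a₃ = 0 := rfl
        have hneg : (crv e).toAffine.negY x' y' = -y' := by
          rw [WeierstrassCurve.Affine.negY, ha1, ha3]; ring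
        obtain ⟨l, hldef⟩ : ∃ l, l = (crv e).toAffine.slope x x' y y' := ⟨_, rfl⟩
        obtain ⟨m, hmdef⟩ : ∃ m, m = (crv e).toAffine.slope x x' y
          ((crv e).toAffine.negY x' y') := ⟨_, rfl⟩
        have hl : l * (x - x') = y - y' := by
          rw [hldef, WeierstrassCurve.Affine.slope_of_X_ne hx, div_mul_cancel₀ _ hD]
        have hm : m * (x - x') = y + y' := by
          rw [hmdef, WeierstrassCurve.Affine.slope_of_X_ne hx, div_mul_cancel₀ _ hD, hneg]
          ring
        obtain ⟨r1, r2⟩ := par_ring hD hc hc' hl hm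
        have hX : ∀ t, (crv e).toAffine.addX x x' t = t ^ 2 - (crv e).a₂ - x - x' := by
          intro t
          rw [WeierstrassCurve.Affine.addX, ha1]; ring
        refine ⟨(x - x') ^ 2, pow_ne_zero 2 hD, ?_⟩
        rw [sub_eq_add_neg (Affine.Point.some x y h), Affine.Point.neg_some,
          Affine.Point.add_of_X_ne hx, Affine.Point.add_of_X_ne hx,
          Affine.Point.sym2x_some_some, Affine.Point.sym2x_some_some, eval_asm, ← hldef, ← hmdef,
          hX, hX, b2, b4, b6, b8]
        funext i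
        fin_cases i
        · simp only [Fin.zero_eta, Matrix.cons_val_zero, Pi.smul_apply, smul_eq_mul]
          linear_combination r1
        · simp only [Fin.mk_one, Matrix.cons_val_one, Matrix.cons_val_zero, Pi.smul_apply,
            smul_eq_mul]
          linear_combination r2
        · simp only [Fin.reduceFinMk, Matrix.cons_val, Pi.smul_apply, smul_eq_mul]
          ring

end Pool.Agent.H94.MW
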