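import Pool.Agent.H94.MW.Par

set_option autoImplicit false

/-!
# [H94 MW PLG] The approximate parallelogram law and the Northcott property for points

`hp P = logHeight P.xRep`.
* `plg`: `logHeight (sym2x P Q)` is `hp P + hp Q` up to a constant (`abs_logHeight_sym2_sub_le`, `xRep_ne_zero`), `logHeight (addSubMap (sym2x P Q))` is `2 logHeight (sym2x P Q)` up to a constant (`abs_logHeight_addSubMap_sub_two_mul_logHeight_le`, `crv_ell`), and it is `logHeight (sym2x (P + Q) (P - Q))` (`par`, invariance under scalars `logHeight_smul_eq_logHeight`).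
* `npt`: for `P = (x, y)`: `hp P = logHeight ![x, 1] = logHeight₁ x`; only finitely many `x` with `mulHeight₁ x ≤ exp B`; `P.xRep` determines `P` up to sign (`xRep_eq_xRep_iff`), so the preimage of a finite set is finite.
-/

namespace Pool.Agent.H94.MW

open WeierstrassCurve Height

variable {K : Type} [Field K] [DecidableEq K]

/-- the naive height of a point -/
noncomputable def hp [AdmissibleAbsValues K] {e : Fin 3 → K} (P : (crv e).toAffine.Point) : ℝ :=
  logHeight P.xRep

theorem plg [AdmissibleAbsValues K] (h2 : (2 : K) ≠ 0) {e : Fin 3 → K}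
    (he : Function.Injective e) :
    ∃ C : ℝ, ∀ P Q : (crv e).toAffine.Point, |hp (P + Q) + hp (P - Q) - 2 * (hp P + hp Q)| ≤ C := by
  have := crv_ell h2 he
  obtain ⟨C₁, hC₁⟩ := abs_logHeight_sym2_sub_le K
  obtain ⟨C₂, hC₂⟩ := (crv e).abs_logHeight_addSubMap_sub_two_mul_logHeight_le
  have hsym : ∀ P Q : (crv e).toAffine.Point,
      |logHeight (P.sym2x Q) - (hp P + hp Q)| ≤ C₁ := by
    intro P Q
    have hv : ∀ R : (crv e).toAffine.Point, ![R.xRep 0, R.xRep 1] = R.xRep := by
      intro R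
      funext i
      fin_cases i <;> rfl
    have h3 := hC₁ (a := P.xRep 0) (b := P.xRep 1) (c := Q.xRep 0) (d := Q.xRep 1)
      (by rw [hv]; exact P.xRep_ne_zero) (by rw [hv]; exact Q.xRep_ne_zero)
    rw [hv, hv] at h3
    exact h3
  refine ⟨3 * C₁ + C₂, fun P Q => ?_⟩
  obtain ⟨τ, hτ, hpar⟩ := par h2 he P Q
  have h4 := hC₂ (P.sym2x Q)
  rw [hpar, logHeight_smul_eq_logHeight _ hτ] at h4
  have h5 := hsym P Q
  have h6 := hsym (P + Q) (P - Q)
  rw [abs_le] at h4 h5 h6 ⊢
  constructor <;> linarith [h4.1, h4.2, h5.1, h5.2, h6.1, h6.2]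

theorem npt [AdmissibleAbsValues K] [Northcott (mulHeight₁ (K := K))] {e : Fin 3 → K} :
    Northcott (hp (e := e)) := by
  constructor
  intro b
  have h1 : {x : K | logHeight₁ x ≤ b}.Finite := Northcott.finite_le b
  have h2 : (({![1, 0]} : Set (Fin 2 → K)) ∪ (fun x : K => ![x, 1]) ''
      {x : K | logHeight₁ x ≤ b}).Finite := (Set.finite_singleton _).union (h1.image _)
  have h3 : ((Affine.Point.xRep (W' := (crv e).toAffine)) ⁻¹'
      (({![1, 0]} : Set (Fin 2 → K)) ∪ (fun x : K => ![x, 1]) ''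
        {x : K | logHeight₁ x ≤ b})).Finite := by
    refine Set.Finite.preimage' h2 fun v _ => ?_
    rcases Set.eq_empty_or_nonempty ((Affine.Point.xRep (W' := (crv e).toAffine)) ⁻¹' {v})
      with h4 | ⟨P₀, hP₀⟩
    · rw [h4]
      exact Set.finite_empty
    · refine (Set.toFinite {P₀, -P₀}).subset fun P hP => ?_
      have h5 : P.xRep = P₀.xRep := by
        rw [Set.mem_preimage, Set.mem_singleton_iff] at hP hP₀
        rw [hP, hP₀]
      exact Affine.Point.xRep_eq_xRep_iff.1 h5
  refine h3.subset fun P hP => ?_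
  have hP' : hp P ≤ b := hP
  rcases P with _ | ⟨x, y, h⟩
  · left
    rfl
  · right
    refine ⟨x, ?_, rfl⟩
    show logHeight₁ x ≤ b
    rw [logHeight₁_eq_logHeight]
    exact hP'

end Pool.Agent.H94.MW
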